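import Pool.Agent.H6.ND3.Alg
import Pool.Agent.H17.T4.Vel
import Pool.Agent.H42.D2.SpanT

/-!
# A linear relation between velocities and the gradient of a deep chart

`RelE`: three lines through the point of a sample, in general position, whose velocities satisfy a
linear relation with a large last coefficient. `rel_grd`: such a relation gives the gradient of the
deep chart as a quotient. `pa2`: the polynomials of the time.
-/

set_option autoImplicit false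

namespace Pool.ND6

open Finset Real MvPolynomial
open Pool.Agent.H49.Ent Pool.Agent.H32.Dense Pool.STK Pool.KA Pool.KSAT Pool.K2S Pool.PB Pool.S6C
open Pool.GEN Pool.CHT Pool.CHX Pool.ISO Pool.D2R
open Pool.PB.Trl (rt rt_mem t_rt)

variable {m J : ℕ}

/-- The determinant of the directions of three lines, in the coordinates `c 0`, `c 1`. -/
noncomputable def det3 (F : Fam m J) (c : ℕ → Fin m) (nu : Fin 3 → F.Ω) : ℝ :=
  (bd F (nu 0) (some (c 0)) - bd F (nu 2) (some (c 0))) *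
    (bd F (nu 1) (some (c 1)) - bd F (nu 2) (some (c 1))) -
  (bd F (nu 1) (some (c 0)) - bd F (nu 2) (some (c 0))) *
    (bd F (nu 0) (some (c 1)) - bd F (nu 2) (some (c 1)))

/-- **The relation**: three lines of `B` through the point of `om`, the determinant of their
directions at least `dm`, whose velocities satisfy a linear relation of precision `ε`, the last
coefficient larger than `ε * E`; the coefficients are polynomials of the relative time of `w`. -/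
def RelE (F : Fam m J) (c : ℕ → Fin m) (B : F.Ω → Prop) (w : ℕ) (dm E : ℝ)
    (PA : ℕ → Polynomial ℝ) (om : F.Ω) : Prop :=
  ∃ (nu : Fin 3 → F.Ω) (ε : ℝ), (∀ a, B (nu a) ∧ ptr F J (nu a) = ptr F J om) ∧
    dm ≤ |det3 F c nu| ∧
    (∀ a, |(PA 3).eval (rt F w om) + ∑ l ∈ range 3, (PA l).eval (rt F w om) *
      bd F (nu a) (some (c l))| ≤ ε) ∧ ε * E < |(PA 2).eval (rt F w om)|

/-- The polynomials of the gradient, in natural units. -/
noncomputable def pa2 {F : Fam m J} (c : ℕ → Fin m) (γ : ℕ → ℕ) (W : ℕ)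
    (H : LnT F → ℕ → MvPolynomial (Option (Fin m)) ℝ) (A : ℕ → Polynomial ℝ) (s : LnT F) (j : ℕ) :
    Polynomial ℝ :=
  Polynomial.C (2 ^ γ 2 / 2 ^ γ j) * (if j = 0 then
    A 0 + A 2 * MvPolynomial.aeval (lc W s) (pderiv (some (c 0)) (H s 2)) +
      (A 1 + A 2 * MvPolynomial.aeval (lc W s) (pderiv (some (c 1)) (H s 2))) *
        MvPolynomial.aeval (lc W s) (pderiv (some (c 0)) (H s 1))
    else A 1 + A 2 * MvPolynomial.aeval (lc W s) (pderiv (some (c 1)) (H s 2)))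

theorem pa2_deg {F : Fam m J} (c : ℕ → Fin m) (γ : ℕ → ℕ) (W : ℕ) {D D₂ : ℕ}
    {H : LnT F → ℕ → MvPolynomial (Option (Fin m)) ℝ} (hH : ∀ s l, (H s l).totalDegree ≤ D)
    {A : ℕ → Polynomial ℝ} (hA : ∀ l, (A l).natDegree ≤ D₂) (s : LnT F) (j : ℕ) :
    (pa2 c γ W H A s j).natDegree ≤ D₂ + 2 * D := by
  have h1 : ∀ (o : Option (Fin m)) (k : ℕ),
      (MvPolynomial.aeval (lc W s) (pderiv o (H s k))).natDegree ≤ D := by
    intro o k
    refine (natDegree_aeval_mul _ _ (E := 1) (fun o => natDegree_lc W s o)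
      (D := D) ?_).trans (by omega)
    exact (Pool.Agent.H50.PW.totalDegree_pderiv_le _ _).trans (hH s k)
  have h2 : ∀ o, (A 2 * MvPolynomial.aeval (lc W s) (pderiv o (H s 2))).natDegree ≤ D₂ + D :=
    fun o => Polynomial.natDegree_mul_le.trans (Nat.add_le_add (hA 2) (h1 o 2))
  have h3 : ∀ k o, (A k + A 2 * MvPolynomial.aeval (lc W s) (pderiv o (H s 2))).natDegree ≤
      D₂ + D := fun k o => (Polynomial.natDegree_add_le _ _).trans
    (max_le ((hA k).trans (by omega)) (h2 o))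
  unfold pa2
  refine (Polynomial.natDegree_C_mul_le _ _).trans ?_
  split_ifs
  · refine (Polynomial.natDegree_add_le _ _).trans (max_le ((h3 0 _).trans (by omega)) ?_)
    refine Polynomial.natDegree_mul_le.trans ?_
    have := h3 1 (some (c 1))
    have := h1 (some (c 0)) 1
    omega
  · exact (h3 1 _).trans (by omega)

/-- **The relation gives the gradient** of the deep chart. -/
theorem rel_grd {F : Fam m J} {c : ℕ → Fin m} (hc : Set.InjOn c (Set.Iio 3)) {w W : ℕ}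
    (hwJ : W ≤ J) {γ : ℕ → ℕ} {G G' : PtT F → ℕ → MvPolynomial (Option (Fin m)) ℝ}
    {H : LnT F → ℕ → MvPolynomial (Option (Fin m)) ℝ} (hG : ∀ y l, DepC c l (G y l))
    (hG' : ∀ y l, DepC c l (G' y l)) {B : F.Ω → Prop} {om : F.Ω} {dm E er U η : ℝ}
    {PA : ℕ → Polynomial ℝ} {A : ℕ → Polynomial ℝ}
    (hA : ∀ l, (A l).eval (rt F W om) = (PA l).eval (rt F w om))
    (hcls : ∀ l ≤ 2, G (ptr F J om) l = H (slam F W om) l)
    (hvel : ∀ nu, B nu → ptr F J nu = ptr F J om → ∀ l ≤ 1, |bd F nu (some (c l)) -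
      dd (G (ptr F J om) l) (bt F om) (bd F nu)| ≤ U * 2 ^ W / 2 ^ γ l)
    (hvel' : ∀ nu, B nu → ptr F J nu = ptr F J om → |bd F nu (some (c 2)) -
      dd (G' (ptr F J om) 2) (bt F om) (bd F nu)| ≤ er)
    (hη : 0 < η) (hdm : η * (2 ^ W * 2 ^ W) ≤ 2 ^ γ 0 * 2 ^ γ 1 * dm) (hE : 0 < E)
    (hU : 0 ≤ U) (her : 0 ≤ er) (hrel : RelE F c B w dm E PA om) :
    (PA 2).eval (rt F w om) ≠ 0 ∧ ∀ j < 2,
      |gnh F c 2 γ G G' om j * (PA 2).eval (rt F w om) +
        (pa2 c γ W H A (slam F W om) j).eval (rt F W om)| ≤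
        2 ^ γ 2 / 2 ^ W * (8 * U * (1 / E + er) / η) * |(PA 2).eval (rt F w om)| := by
  obtain ⟨nu, ε, hnu, hdet, hre, hbig⟩ := hrel
  have h01 : c 0 ≠ c 1 := fun h => by
    have := hc (show (0 : ℕ) ∈ Set.Iio 3 by simp) (show (1 : ℕ) ∈ Set.Iio 3 by simp) h
    omega
  obtain ⟨x, hx⟩ : ∃ x, x = bt F om := ⟨_, rfl⟩
  obtain ⟨β, hβ⟩ : ∃ β, β = (PA 2).eval (rt F w om) := ⟨_, rfl⟩
  have hε0 : 0 ≤ ε := (abs_nonneg _).trans (hre 0)
  have hβ0 : 0 < |β| := by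
    rw [hβ]
    exact lt_of_le_of_lt (mul_nonneg hε0 hE.le) hbig
  have hεE : ε ≤ 1 / E * |β| := by
    rw [hβ, one_div, inv_mul_eq_div, le_div_iff₀ hE]
    exact hbig.le
  have h1n : ∀ a, bd F (nu a) none = 1 := fun a => rfl
  obtain ⟨y, hy⟩ : ∃ y, y = ptr F J om := ⟨_, rfl⟩
  obtain ⟨κ0, hκ0⟩ : ∃ κ0, κ0 = eval x (pderiv none (G y 0)) := ⟨_, rfl⟩
  obtain ⟨κ1, hκ1⟩ : ∃ κ1, κ1 = eval x (pderiv none (G y 1)) := ⟨_, rfl⟩
  obtain ⟨ρ, hρ⟩ : ∃ ρ, ρ = eval x (pderiv (some (c 0)) (G y 1)) := ⟨_, rfl⟩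
  obtain ⟨κ2, hκ2⟩ : ∃ κ2, κ2 = eval x (pderiv none (G y 2)) := ⟨_, rfl⟩
  obtain ⟨σ0, hσ0⟩ : ∃ σ0, σ0 = eval x (pderiv (some (c 0)) (G y 2)) := ⟨_, rfl⟩
  obtain ⟨σ1, hσ1⟩ : ∃ σ1, σ1 = eval x (pderiv (some (c 1)) (G y 2)) := ⟨_, rfl⟩
  have e0 : ∀ a, dd (G y 0) x (bd F (nu a)) = κ0 := fun a => by
    rw [dd1 h01 (hG y 0), h1n, mul_one, hκ0]
  have e1 : ∀ a, dd (G y 1) x (bd F (nu a)) = κ1 + ρ * bd F (nu a) (some (c 0)) := fun a => by
    rw [dd2 h01 (hG y 1), h1n, mul_one, hκ1, hρ]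
  have e2 : ∀ a, dd (G y 2) x (bd F (nu a)) = κ2 + σ0 * bd F (nu a) (some (c 0)) +
      σ1 * bd F (nu a) (some (c 1)) := fun a => by
    rw [dd3 h01 (hG y 2), h1n, mul_one, hκ2, hσ0, hσ1]
  -- the deep chart
  have hc2 : Set.InjOn c (Set.Iio 2) := hc.mono fun z hz => by
    rw [Set.mem_Iio] at hz ⊢
    omega
  obtain ⟨τ, hτ⟩ := Pool.T4E.ncp_sumT hc2 (hG y) (Q := G' y 2 - G y 2) (fun b b' k1 k2 => by
    rw [map_sub, map_sub, hG' y 2 b b' k1 k2, hG y 2 b b' k1 k2]) x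
  obtain ⟨C, hC⟩ : ∃ C : ℕ → ℝ, C = fun j => ncp c 2 (G y) (G' y 2 - G y 2) x j := ⟨_, rfl⟩
  have hCj : ∀ j, ncp c 2 (G y) (G' y 2 - G y 2) x j = C j := fun j => by rw [hC]
  have hdeep : ∀ a, |bd F (nu a) (some (c 2)) - (κ2 + σ0 * bd F (nu a) (some (c 0)) +
      σ1 * bd F (nu a) (some (c 1))) - (τ + C 0 * (bd F (nu a) (some (c 0)) - κ0) +
      C 1 * (bd F (nu a) (some (c 1)) - (κ1 + ρ * bd F (nu a) (some (c 0)))))| ≤ er := by
    intro a
    have h1 := hτ (bd F (nu a))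
    rw [Finset.sum_range_succ, Finset.sum_range_one, hCj, hCj, e0, e1, h1n, mul_one] at h1
    have h2 : dd (G' y 2 - G y 2) x (bd F (nu a)) = dd (G' y 2) x (bd F (nu a)) -
      dd (G y 2) x (bd F (nu a)) := dd_sub _ _ _ _
    rw [h2, e2] at h1
    have h3 := hvel' (nu a) (hnu a).1 (hnu a).2
    rw [← hy, ← hx] at h3
    have h4 : bd F (nu a) (some (c 2)) - (κ2 + σ0 * bd F (nu a) (some (c 0)) +
      σ1 * bd F (nu a) (some (c 1))) - (τ + C 0 * (bd F (nu a) (some (c 0)) - κ0) +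
      C 1 * (bd F (nu a) (some (c 1)) - (κ1 + ρ * bd F (nu a) (some (c 0))))) =
      bd F (nu a) (some (c 2)) - dd (G' y 2) x (bd F (nu a)) := by linarith
    rw [h4]
    exact h3
  -- the natural units
  have h2p : ∀ k : ℕ, (0 : ℝ) < 2 ^ k := fun k => by positivity
  obtain ⟨g0, hg0⟩ : ∃ g0 : ℝ, g0 = 2 ^ γ 0 / 2 ^ W := ⟨_, rfl⟩
  obtain ⟨g1, hg1⟩ : ∃ g1 : ℝ, g1 = 2 ^ γ 1 / 2 ^ W := ⟨_, rfl⟩
  have hg00 : 0 < g0 := by rw [hg0]; positivity
  have hg10 : 0 < g1 := by rw [hg1]; positivity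
  have hX : ∀ a, |g0 * (bd F (nu a) (some (c 0)) - κ0)| ≤ U := by
    intro a
    have h1 := hvel (nu a) (hnu a).1 (hnu a).2 0 (by norm_num)
    rw [← hy, ← hx, e0] at h1
    rw [abs_mul, abs_of_pos hg00, hg0]
    refine (mul_le_mul_of_nonneg_left h1 (by positivity)).trans (le_of_eq ?_)
    field_simp
  have hY : ∀ a, |g1 * (bd F (nu a) (some (c 1)) - (κ1 + ρ * bd F (nu a) (some (c 0))))| ≤ U := by
    intro a
    have h1 := hvel (nu a) (hnu a).1 (hnu a).2 1 le_rfl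
    rw [← hy, ← hx, e1] at h1
    rw [abs_mul, abs_of_pos hg10, hg1]
    refine (mul_le_mul_of_nonneg_left h1 (by positivity)).trans (le_of_eq ?_)
    field_simp
  obtain ⟨α, hα⟩ : ∃ α, α = (PA 3).eval (rt F w om) := ⟨_, rfl⟩
  obtain ⟨a0, ha0⟩ : ∃ a0, a0 = (PA 0).eval (rt F w om) := ⟨_, rfl⟩
  obtain ⟨a1, ha1⟩ : ∃ a1, a1 = (PA 1).eval (rt F w om) := ⟨_, rfl⟩
  have halg := alg2 (α := α) (a0 := a0) (a1 := a1) (β := β) (κ0 := κ0) (κ1 := κ1) (ρ := ρ)
    (κ2 := κ2) (σ0 := σ0) (σ1 := σ1) (τ := τ) (c0 := C 0) (c1 := C 1) (ε := ε) (er := er)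
    (U := U) (η := η) (p := fun a => bd F (nu a) (some (c 0)))
    (q := fun a => bd F (nu a) (some (c 1))) (f := fun a => bd F (nu a) (some (c 2)))
    hg00 hg10 hη (fun a => by
      have h1 := hre a
      rw [Finset.sum_range_succ, Finset.sum_range_succ, Finset.sum_range_one, ← hα, ← ha0,
        ← ha1, ← hβ] at h1
      have h2 : α + a0 * bd F (nu a) (some (c 0)) + a1 * bd F (nu a) (some (c 1)) +
        β * bd F (nu a) (some (c 2)) = α + (a0 * bd F (nu a) (some (c 0)) +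
        a1 * bd F (nu a) (some (c 1)) + β * bd F (nu a) (some (c 2))) := by ring
      rw [h2]
      exact h1) hdeep hX hY (by
      have h1 : (g0 * (bd F (nu 0) (some (c 0)) - κ0) - g0 * (bd F (nu 2) (some (c 0)) - κ0)) *
          (g1 * (bd F (nu 1) (some (c 1)) - (κ1 + ρ * bd F (nu 1) (some (c 0)))) -
            g1 * (bd F (nu 2) (some (c 1)) - (κ1 + ρ * bd F (nu 2) (some (c 0))))) -
          (g0 * (bd F (nu 1) (some (c 0)) - κ0) - g0 * (bd F (nu 2) (some (c 0)) - κ0)) *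
          (g1 * (bd F (nu 0) (some (c 1)) - (κ1 + ρ * bd F (nu 0) (some (c 0)))) -
            g1 * (bd F (nu 2) (some (c 1)) - (κ1 + ρ * bd F (nu 2) (some (c 0))))) =
          g0 * g1 * det3 F c nu := by
        unfold det3
        ring
      beta_reduce
      rw [h1, abs_mul, abs_of_pos (mul_pos hg00 hg10)]
      have h2 : g0 * g1 * dm ≤ g0 * g1 * |det3 F c nu| :=
        mul_le_mul_of_nonneg_left hdet (mul_pos hg00 hg10).le
      refine le_trans ?_ h2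
      rw [hg0, hg1]
      have h3 : (2 : ℝ) ^ γ 0 / 2 ^ W * (2 ^ γ 1 / 2 ^ W) * dm =
          2 ^ γ 0 * 2 ^ γ 1 * dm / (2 ^ W * 2 ^ W) := by
        field_simp
      rw [h3, le_div_iff₀ (by positivity)]
      exact hdm)
  have hbnd : 8 * U * (ε + |β| * er) / η ≤ 8 * U * (1 / E + er) / η * |β| := by
    rw [div_mul_eq_mul_div]
    refine div_le_div_of_nonneg_right ?_ hη.le
    have h1 : 8 * U * (1 / E + er) * |β| = 8 * U * (1 / E * |β| + |β| * er) := by ring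
    rw [h1]
    exact mul_le_mul_of_nonneg_left (by linarith) (by linarith)
  rw [← hβ]
  refine ⟨abs_pos.1 hβ0, ?_⟩
  -- the evaluation
  have hev : ∀ (o : Option (Fin m)) (k : ℕ), k ≤ 2 →
      (MvPolynomial.aeval (lc W (slam F W om)) (pderiv o (H (slam F W om) k))).eval (rt F W om) =
        eval x (pderiv o (G y k)) := by
    intro o k hk
    rw [aeval_lc, ptw_rt F hwJ, ← hcls k hk, hy, hx]
  have hfin : ∀ j, ∀ g z : ℝ, g = 2 ^ γ j / 2 ^ W → |C j * β + z| ≤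
      g * (8 * U * (ε + |β| * er) / η) →
      |2 ^ γ 2 / 2 ^ γ j * C j * β + 2 ^ γ 2 / 2 ^ γ j * z| ≤
        2 ^ γ 2 / 2 ^ W * (8 * U * (1 / E + er) / η) * |β| := by
    intro j g z hg h1
    have e3 : 2 ^ γ 2 / 2 ^ γ j * C j * β + 2 ^ γ 2 / 2 ^ γ j * z =
      2 ^ γ 2 / 2 ^ γ j * (C j * β + z) := by ring
    rw [e3, abs_mul, abs_of_pos (show (0 : ℝ) < 2 ^ γ 2 / 2 ^ γ j by positivity)]
    refine (mul_le_mul_of_nonneg_left h1 (by positivity)).trans ?_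
    rw [hg]
    have e4 : (2 : ℝ) ^ γ 2 / 2 ^ γ j * (2 ^ γ j / 2 ^ W * (8 * U * (ε + |β| * er) / η)) =
      2 ^ γ 2 / 2 ^ W * (8 * U * (ε + |β| * er) / η) := by
      field_simp
    rw [e4, mul_assoc (2 ^ γ 2 / 2 ^ W : ℝ)]
    exact mul_le_mul_of_nonneg_left hbnd (by positivity)
  have hgn : ∀ j, gnh F c 2 γ G G' om j = 2 ^ γ 2 / 2 ^ γ j * C j := fun j => by
    unfold gnh
    rw [← hy, ← hx, hCj]
  intro j hj
  rw [hgn]
  have hA' : ∀ l, (A l).eval (rt F W om) = (PA l).eval (rt F w om) := hA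
  unfold pa2
  rw [Polynomial.eval_mul, Polynomial.eval_C]
  rcases Nat.lt_or_ge j 1 with h1 | h1
  · have h2 : j = 0 := by omega
    subst h2
    rw [if_pos rfl, Polynomial.eval_add, Polynomial.eval_add, Polynomial.eval_mul,
      Polynomial.eval_mul, Polynomial.eval_add, Polynomial.eval_mul, hev _ 2 le_rfl,
      hev _ 2 le_rfl, hev _ 1 (by norm_num), hA', hA', hA', ← hβ, ← ha0, ← ha1, ← hσ0, ← hσ1,
      ← hρ]
    exact hfin 0 g0 _ hg0 halg.2
  · have h2 : j = 1 := by omega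
    subst h2
    rw [if_neg one_ne_zero, Polynomial.eval_add, Polynomial.eval_mul, hev _ 2 le_rfl, hA', hA',
      ← hβ, ← ha1, ← hσ1]
    exact hfin 1 g1 _ hg1 halg.1

end Pool.ND6
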