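import Pool.Agent.H6.ND3.Rel
import Pool.Agent.H66.NDD.Ddx

/-!
# From the own velocities to the velocities

`rel_abs`: a relation between own velocities over the charts `ψ l` is `RelE`.
-/

set_option autoImplicit false

namespace Pool.ND6

open Finset Real MvPolynomial
open Pool.Agent.H49.Ent Pool.Agent.H32.Dense Pool.STK Pool.KA Pool.KSAT Pool.K2S Pool.PB Pool.S6C
open Pool.GEN Pool.CHT Pool.CHX Pool.ISO Pool.D2R
open Pool.PB.Trl (rt rt_mem t_rt)

variable {m J : ℕ}

/-- The coefficients of the velocities, from the coefficients of the own velocities over the charts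
`ψ l`; `3` is the constant term. -/
noncomputable def pab {F : Fam m J} (c : ℕ → Fin m) (w : ℕ)
    (ψ : ℕ → MvPolynomial (Option (Fin m)) ℝ) (A : ℕ → Polynomial ℝ) (s : LnT F) (l : ℕ) :
    Polynomial ℝ :=
  if l = 0 then A 0 - (A 1 * MvPolynomial.aeval (lc w s) (pderiv (some (c 0)) (ψ 1)) +
    A 2 * MvPolynomial.aeval (lc w s) (pderiv (some (c 0)) (ψ 2)))
  else if l = 1 then A 1 - A 2 * MvPolynomial.aeval (lc w s) (pderiv (some (c 1)) (ψ 2))
  else if l = 2 then A 2
  else A 3 - (A 0 * MvPolynomial.aeval (lc w s) (pderiv none (ψ 0)) +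
    A 1 * MvPolynomial.aeval (lc w s) (pderiv none (ψ 1)) +
    A 2 * MvPolynomial.aeval (lc w s) (pderiv none (ψ 2)))

theorem pab_deg {F : Fam m J} (c : ℕ → Fin m) (w : ℕ) {D D₂ : ℕ}
    {ψ : ℕ → MvPolynomial (Option (Fin m)) ℝ} (hψ : ∀ l, (ψ l).totalDegree ≤ D)
    {A : ℕ → Polynomial ℝ} (hA : ∀ l, (A l).natDegree ≤ D₂) (s : LnT F) (l : ℕ) :
    (pab c w ψ A s l).natDegree ≤ D₂ + D := by
  have h1 : ∀ (o : Option (Fin m)) (k : ℕ),
      (MvPolynomial.aeval (lc w s) (pderiv o (ψ k))).natDegree ≤ D := by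
    intro o k
    refine (natDegree_aeval_mul _ _ (E := 1) (fun o => natDegree_lc w s o)
      (D := D) ?_).trans (by omega)
    exact (Pool.Agent.H50.PW.totalDegree_pderiv_le _ _).trans (hψ k)
  have h2 : ∀ j o k, (A j * MvPolynomial.aeval (lc w s) (pderiv o (ψ k))).natDegree ≤ D₂ + D :=
    fun j o k => Polynomial.natDegree_mul_le.trans (Nat.add_le_add (hA j) (h1 o k))
  have h3 : ∀ j, (A j).natDegree ≤ D₂ + D := fun j => (hA j).trans (by omega)
  have hs : ∀ {P Q : Polynomial ℝ}, P.natDegree ≤ D₂ + D → Q.natDegree ≤ D₂ + D →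
      (P - Q).natDegree ≤ D₂ + D := fun h h' =>
    (Polynomial.natDegree_sub_le _ _).trans (max_le h h')
  have ha : ∀ {P Q : Polynomial ℝ}, P.natDegree ≤ D₂ + D → Q.natDegree ≤ D₂ + D →
      (P + Q).natDegree ≤ D₂ + D := fun h h' =>
    (Polynomial.natDegree_add_le _ _).trans (max_le h h')
  unfold pab
  split_ifs
  · exact hs (h3 0) (ha (h2 1 _ 1) (h2 2 _ 2))
  · exact hs (h3 1) (h2 2 _ 2)
  · exact h3 2
  · exact hs (h3 3) (ha (ha (h2 0 _ 0) (h2 1 _ 1)) (h2 2 _ 2))

/-- **A relation between own velocities.** -/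
theorem rel_abs {F : Fam m J} {c : ℕ → Fin m} (h01 : c 0 ≠ c 1) {w : ℕ} (hw : w ≤ J)
    {ψ : ℕ → MvPolynomial (Option (Fin m)) ℝ} (hψ : ∀ l, DepC c l (ψ l))
    {A : ℕ → Polynomial ℝ} {B : F.Ω → Prop} {om : F.Ω} {nu : Fin 3 → F.Ω} {ε dm E : ℝ}
    {er : ℕ → ℝ} (hnu : ∀ a, B (nu a) ∧ ptr F J (nu a) = ptr F J om)
    (hdet : dm ≤ |det3 F c nu|)
    (hrel : ∀ a, |(A 3).eval (rt F w om) + ∑ l ∈ range 3, (A l).eval (rt F w om) *
      Pool.NDD66.ov F c ψ (nu a) l| ≤ ε)
    (her : ∀ a, ∀ l < 3, |dd (ψ l) (bt F om) (bd F (nu a)) -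
      dd (ψ l) (bt F (nu a)) (bd F (nu a))| ≤ er l)
    (hbig : (ε + ∑ l ∈ range 3, |(A l).eval (rt F w om)| * er l) * E <
      |(A 2).eval (rt F w om)|) : RelE F c B w dm E (pab c w ψ A (slam F w om)) om := by
  refine ⟨nu, ε + ∑ l ∈ range 3, |(A l).eval (rt F w om)| * er l, hnu, hdet, fun a => ?_, ?_⟩
  · have hev : ∀ (o : Option (Fin m)) (k : ℕ),
        (MvPolynomial.aeval (lc w (slam F w om)) (pderiv o (ψ k))).eval (rt F w om) =
          eval (bt F om) (pderiv o (ψ k)) := by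
      intro o k
      rw [aeval_lc, ptw_rt F hw]
    have hd0 := dd1 h01 (hψ 0) (bt F om) (bd F (nu a))
    have hd1 := dd2 h01 (hψ 1) (bt F om) (bd F (nu a))
    have hd2 := dd3 h01 (hψ 2) (bt F om) (bd F (nu a))
    have h1n : bd F (nu a) none = 1 := rfl
    rw [h1n, mul_one] at hd0 hd1 hd2
    have h1 := hrel a
    have h3 : ∀ l, Pool.NDD66.ov F c ψ (nu a) l = (bd F (nu a) (some (c l)) -
        dd (ψ l) (bt F om) (bd F (nu a))) + (dd (ψ l) (bt F om) (bd F (nu a)) -
        dd (ψ l) (bt F (nu a)) (bd F (nu a))) := fun l => by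
      unfold Pool.NDD66.ov
      ring
    obtain ⟨e, he⟩ : ∃ e : ℕ → ℝ, e = fun l => dd (ψ l) (bt F om) (bd F (nu a)) -
        dd (ψ l) (bt F (nu a)) (bd F (nu a)) := ⟨_, rfl⟩
    have hel : ∀ l, dd (ψ l) (bt F om) (bd F (nu a)) -
        dd (ψ l) (bt F (nu a)) (bd F (nu a)) = e l := fun l => by rw [he]
    have hee : ∀ l < 3, |e l| ≤ er l := fun l hl => by
      rw [he]
      exact her a l hl
    simp only [h3, hel] at h1
    obtain ⟨τ, hτ⟩ : ∃ τ, τ = rt F w om := ⟨_, rfl⟩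
    rw [← hτ] at h1 hev
    rw [← hτ]
    have e0 : (pab c w ψ A (slam F w om) 0).eval τ = (A 0).eval τ - ((A 1).eval τ *
        eval (bt F om) (pderiv (some (c 0)) (ψ 1)) + (A 2).eval τ *
        eval (bt F om) (pderiv (some (c 0)) (ψ 2))) := by
      unfold pab
      rw [if_pos rfl, Polynomial.eval_sub, Polynomial.eval_add, Polynomial.eval_mul,
        Polynomial.eval_mul, hev, hev]
    have e1 : (pab c w ψ A (slam F w om) 1).eval τ = (A 1).eval τ - (A 2).eval τ *
        eval (bt F om) (pderiv (some (c 1)) (ψ 2)) := by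
      unfold pab
      rw [if_neg one_ne_zero, if_pos rfl, Polynomial.eval_sub, Polynomial.eval_mul, hev]
    have e2 : (pab c w ψ A (slam F w om) 2).eval τ = (A 2).eval τ := by
      unfold pab
      rw [if_neg (by norm_num), if_neg (by norm_num), if_pos rfl]
    have e3 : (pab c w ψ A (slam F w om) 3).eval τ = (A 3).eval τ - ((A 0).eval τ *
        eval (bt F om) (pderiv none (ψ 0)) + (A 1).eval τ *
        eval (bt F om) (pderiv none (ψ 1)) + (A 2).eval τ *
        eval (bt F om) (pderiv none (ψ 2))) := by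
      unfold pab
      rw [if_neg (by norm_num), if_neg (by norm_num), if_neg (by norm_num), Polynomial.eval_sub,
        Polynomial.eval_add, Polynomial.eval_add, Polynomial.eval_mul, Polynomial.eval_mul,
        Polynomial.eval_mul, hev, hev, hev]
    have hid : (pab c w ψ A (slam F w om) 3).eval τ + ∑ l ∈ range 3,
        (pab c w ψ A (slam F w om) l).eval τ * bd F (nu a) (some (c l)) =
        ((A 3).eval τ + ∑ l ∈ range 3, (A l).eval τ * ((bd F (nu a) (some (c l)) -
          dd (ψ l) (bt F om) (bd F (nu a))) + e l)) -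
        ∑ l ∈ range 3, (A l).eval τ * e l := by
      simp only [Finset.sum_range_succ, Finset.sum_range_zero]
      rw [e0, e1, e2, e3, hd0, hd1, hd2]
      ring
    rw [hid]
    refine (abs_sub _ _).trans (add_le_add h1 ?_)
    refine (Finset.abs_sum_le_sum_abs _ _).trans (Finset.sum_le_sum fun l hl => ?_)
    rw [abs_mul]
    exact mul_le_mul_of_nonneg_left (hee l (Finset.mem_range.1 hl)) (abs_nonneg _)
  · have e2 : pab c w ψ A (slam F w om) 2 = A 2 := by
      unfold pab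
      rw [if_neg (by norm_num), if_neg (by norm_num), if_pos rfl]
    rw [e2]
    exact hbig

end Pool.ND6
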