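import Pool.Agent.H6.ND3.Rat

/-!
# A closed rational gradient

`ad_noR`: as `ad_noG`, where the gradient of the target is a quotient of polynomials of the time; the
denominator is a function of a longer window (it may be small at most samples).
-/

set_option autoImplicit false

namespace Pool.ND6

open Finset Real MvPolynomial
open Pool.Agent.H49.Ent Pool.Agent.H32.Dense Pool.STK Pool.KA Pool.KSAT Pool.K2S Pool.PB Pool.S6C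
open Pool.GEN Pool.CHT Pool.CHX Pool.ISO Pool.D2R
open Pool.FLF (Fam.sub)
open Pool.PB.Trl (rt rt_mem t_rt)
open Pool.LBT (ThrOf)

variable {m : ℕ}

/-- Numbers: the error of the rational function. -/
theorem rat_err {n : ℕ} {a b b₀ g S Cl E T₁ T₂ X : ℝ} {k : ℕ} (hb : b ≠ 0) (hS0 : 0 ≤ S)
    (hS : S ≤ E * |b|) (hCl : 0 ≤ Cl) (hE : 0 ≤ E) (hbb : |b - b₀| ≤ Cl * S * (1 / 2 ^ k))
    (hX : 4 * Cl * E ≤ X * 2 ^ k) (hX1 : X ≤ 1) (hX0 : 0 ≤ X) (hg : |g * b + a| ≤ T₁ * |b|)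
    (hg1 : |g| ≤ T₂) (hT₁ : 0 ≤ T₁) : b₀ ≠ 0 ∧ |g + a / b| ≤ T₁ ∧
      |a / b * (1 - b / b₀) ^ n| ≤ (T₂ + T₁) * X ^ n := by
  have hb0 : 0 < |b| := abs_pos.2 hb
  have h2 : (0 : ℝ) < 2 ^ k := by positivity
  have h1 : |b - b₀| ≤ X / 4 * |b| := by
    refine hbb.trans ?_
    have h3 : Cl * S * (1 / 2 ^ k) ≤ Cl * (E * |b|) * (1 / 2 ^ k) := by
      refine mul_le_mul_of_nonneg_right (mul_le_mul_of_nonneg_left hS hCl) (by positivity)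
    refine h3.trans ?_
    have h4 : Cl * E * (1 / 2 ^ k) ≤ X / 4 := by
      rw [mul_one_div, div_le_iff₀ h2]
      linarith
    calc Cl * (E * |b|) * (1 / 2 ^ k) = Cl * E * (1 / 2 ^ k) * |b| := by ring
      _ ≤ X / 4 * |b| := mul_le_mul_of_nonneg_right h4 hb0.le
  have h5 : |b| / 2 ≤ |b₀| := by
    have h6 : |b| - |b₀| ≤ |b - b₀| := abs_sub_abs_le_abs_sub b b₀
    have h7 : X / 4 * |b| ≤ 1 / 2 * |b| := mul_le_mul_of_nonneg_right (by linarith) hb0.le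
    linarith
  have hb₀ : 0 < |b₀| := lt_of_lt_of_le (by linarith) h5
  have hb₀' : b₀ ≠ 0 := abs_pos.1 hb₀
  have h8 : |1 - b / b₀| ≤ X := by
    have e1 : 1 - b / b₀ = (b₀ - b) / b₀ := by field_simp
    rw [e1, abs_div, div_le_iff₀ hb₀, abs_sub_comm]
    refine h1.trans ?_
    have h9 := mul_le_mul_of_nonneg_left h5 hX0
    nlinarith
  have h9 : |g + a / b| ≤ T₁ := by
    have e1 : g + a / b = (g * b + a) / b := by field_simp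
    rw [e1, abs_div, div_le_iff₀ hb0]
    exact hg
  refine ⟨hb₀', h9, ?_⟩
  rw [abs_mul, abs_pow]
  have h10 : |a / b| ≤ T₂ + T₁ := by
    have e1 : a / b = (g + a / b) - g := by ring
    rw [e1]
    refine (abs_sub _ _).trans ?_
    linarith
  exact mul_le_mul h10 (pow_le_pow_left₀ (abs_nonneg _) h8 n) (by positivity)
    ((abs_nonneg _).trans h10)

/-- **A closed rational gradient gives `No`.** -/
theorem ad_noR (m D₂ D D' i n : ℕ) (hD : 1 ≤ D) (hn1 : 1 ≤ n) : ∃ C : ℝ, 1 ≤ C ∧ ∀ {S : PCl m}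
    {P : List (Fin m) × Fin m → ℝ → ℝ → ℝ} {θ : ℝ} {c : ℕ → Fin m}
    {C₀ a' Eb ηm ζ : ℝ} {o η σ : ℕ → ℝ} {lv : ℕ → ℕ → ℝ} {r Dr N M k₀ nd : ℕ} {a w : ℚ}
    {q₁ s₁ h h₂ e ι v₀ : ℝ}, ThrOf (chsys m θ) S P → TmH S → Set.InjOn c (Set.Iio (r + 1)) →
    i ≤ r → k₀ ≤ N → nd ≤ N → o k₀ ≤ w → w ≤ o k₀ + ζ → 0 ≤ w → w ≤ a → a ≤ 1 → w < 1 →
    e < θ * w → 0 < h → 0 ≤ h₂ → 0 < ζ → C₀ * ηm ≤ ζ → 0 ≤ q₁ → bet P c i a w + h ≤ 1 →
    Eb + C * ζ + 2 * h₂ ≤ e →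
    bet P c i a w + h + C * ζ + 2 * h₂ ≤ lv k₀ i + s₁ + (a - w) →
    bet P c i a w + h + C * ζ + 2 * h₂ ≤ lv nd i - (o nd - w) + (a - w) →
    bet P c i a w + h + C * ζ + 2 * h₂ + q₁ ≤ lv k₀ i + 2 * (a - w) → q₁ + C * ζ ≤ a - w →
    (∀ l ≤ i, Eb + lv k₀ l + 2 * (a - w) + C * ζ ≤ 1) →
    (∀ l ≤ i, Eb + lv k₀ l + max s₁ 0 + 2 * q₁ + C * ζ ≤ 1) →
    (∀ j < i, lv k₀ j ≤ lv k₀ i + ζ + h₂ ∨
      bet P c i a w + h ≤ lv k₀ i + (a - w) + ζ + h₂) →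
    0 ≤ ι → ι < ζ → 0 ≤ v₀ → v₀ < 1 → v₀ ≤ o k₀ → 0 ≤ s₁ → s₁ + ι ≤ n * (o k₀ - v₀ - ζ) →
    ∃ δ : ℝ, 0 < δ ∧ Bas S (fun J F A => ∀ (z : ℕ → ℕ → ℕ) (κ : ℝ) (b : ℕ → ℕ → ℝ)
      (B : F.Ω → Prop) (g₀ : ℕ → ℕ → ℕ)
      (G : ℕ → PtT F → ℕ → MvPolynomial (Option (Fin m)) ℝ)
      (H : ℕ → LnT F → ℕ → MvPolynomial (Option (Fin m)) ℝ) (jq jT W : ℕ),
      WinB F c r D Dr N M C₀ a' Eb ηm o η σ lv b κ z B g₀ G H →
      Sub B A → jq ≤ M → jT ≤ M → (z k₀ jq : ℝ) ≤ q₁ * J →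
      ⌊o k₀ * J⌋₊ + z k₀ jT ≤ ⌊(a : ℝ) * J⌋₊ →
      (a : ℝ) * J ≤ ⌊o k₀ * J⌋₊ + z k₀ jT + ζ * J + 2 →
      ⌊o k₀ * J⌋₊ ≤ W → W ≤ ⌊(w : ℝ) * J⌋₊ → W ≤ ⌊o k₀ * J⌋₊ + z k₀ jq →
      ∀ (B' : F.Ω → Prop) (Q : PtT F → ℕ → MvPolynomial (Option (Fin m)) ℝ)
        (HQ : LnT F → ℕ → MvPolynomial (Option (Fin m)) ℝ) (κQ : F.Ω → ℕ → ℝ)
        (Pa : LnT F → ℕ → Polynomial ℝ) (Pb : LnT F → Polynomial ℝ), Sub B' B →
      ROutB F c r ⌊o k₀ * J⌋₊ ⌊ζ * J⌋₊ (g₀ k₀) B' (G k₀) (H k₀) →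
      ROutB F c r ⌊o nd * J⌋₊ ⌊ζ * J⌋₊ (g₀ nd) B' (G nd) (H nd) →
      (∀ y l, (Q y l).totalDegree ≤ D') → (∀ y l, DepC c l (Q y l)) →
      (∀ s l, (HQ s l).totalDegree ≤ D') → (∀ s l, DepC c l (HQ s l)) →
      (∀ ω, B' ω → ∀ l ≤ i, Q (ptr F J ω) l = HQ (slam F W ω) l) →
      (∀ ω, B' ω → ∀ l ≤ i, ∀ b, NBx c (G k₀ (ptr F J ω)) (g₀ k₀) ⌊o k₀ * J⌋₊ (F.t ω) l b →
        |eval b (Q (ptr F J ω) l) + κQ ω l - eval b (G k₀ (ptr F J ω) l)| ≤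
          2 ^ ⌊ζ * J⌋₊ / 2 ^ g₀ k₀ l) →
      (∀ s j, (Pa s j).natDegree ≤ D₂) → (∀ s, (Pb s).natDegree ≤ D₂) →
      (∀ ω, B' ω → (Pb (slam F ⌊v₀ * J⌋₊ ω)).eval (rt F ⌊v₀ * J⌋₊ ω) ≠ 0 ∧ ∀ j < i,
        |gnh F c i (g₀ k₀) Q (G nd) ω j * (Pb (slam F ⌊v₀ * J⌋₊ ω)).eval (rt F ⌊v₀ * J⌋₊ ω) +
          (Pa (slam F W ω) j).eval (rt F W ω)| ≤ 2 ^ (-(s₁ * J)) *
            |(Pb (slam F ⌊v₀ * J⌋₊ ω)).eval (rt F ⌊v₀ * J⌋₊ ω)|) →
      (∀ ω, B' ω → ∀ j < i, |gnh F c i (g₀ k₀) Q (G nd) ω j| ≤ 2 ^ (ι * J)) →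
      (∀ ω ν, B' ω → B' ν → ptr F J ω = ptr F J ν → ∀ j < i,
        |gnh F c i (g₀ k₀) Q (G nd) ω j - gnh F c i (g₀ k₀) Q (G nd) ν j| ≤
          2 ^ (-(s₁ * J))) →
      Pe F.p B' ≤ Real.exp (-(δ * J)) * Pe F.p A) := by
  classical
  obtain ⟨Ca, hCa, had⟩ := ad_noG m (n * D₂) D D' i hD
  obtain ⟨Cl, hCl, hlip⟩ := lip_unit D₂
  obtain ⟨Cr, hCr, hrem⟩ := rem_low m D₂
  refine ⟨Ca, hCa, ?_⟩
  intro S P θ c C₀ a' Eb ηm ζ o η σ lv r Dr N M k₀ nd a w q₁ s₁ h h₂ e ι v₀ hP hS hc hi hk₀ hnd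
    how1 how2 hw hwa ha hw1 he hh hh₂ hζ hCη hq₁ hbet hEe h1 h2 h3 h4 h5 h6 hnl hι0 hιζ hv0 hv1
    hvo hs₁ hns
  have h2' : (0 : ℝ) < 2 := by norm_num
  have hl2 : 0 < Real.log 2 := Real.log_pos one_lt_two
  obtain ⟨δ₁, hδ₁, hG⟩ := had (S := S) (P := P) (θ := θ) (c := c) (C₀ := C₀) (a' := a') (Eb := Eb)
    (ηm := ηm) (ζ := ζ) (o := o) (η := η) (σ := σ) (lv := lv) (r := r) (Dr := Dr) (N := N)
    (M := M) (k₀ := k₀) (n := nd) (a := a) (w := w) (q₁ := q₁) (s₁ := s₁) (h := h) (h₂ := h₂)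
    (e := e) hP hS hc hi hk₀ hnd how1 how2 hw hwa ha hw1 he hh hh₂ hζ hCη hq₁ hbet hEe h1 h2 h3 h4
    h5 h6 hnl
  obtain ⟨ψ, hψ⟩ : ∃ ψ : ℝ, ψ = min ζ (1 - v₀) * Real.log 2 / (2 * Cr) := ⟨_, rfl⟩
  have hCr0 : 0 < Cr := by linarith
  have hmin : 0 < min ζ (1 - v₀) := lt_min hζ (by linarith)
  have hψ0 : 0 < ψ := by rw [hψ]; positivity
  have hψC : Cr * ψ = min ζ (1 - v₀) * Real.log 2 / 2 := by
    rw [hψ]
    field_simp
  have hψ1 : Cr * ψ ≤ ζ * Real.log 2 / 2 := by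
    rw [hψC]
    have := mul_le_mul_of_nonneg_right (min_le_left ζ (1 - v₀)) hl2.le
    linarith
  have hψ2 : Cr * ψ ≤ (1 - v₀) * Real.log 2 / 2 := by
    rw [hψC]
    have := mul_le_mul_of_nonneg_right (min_le_right ζ (1 - v₀)) hl2.le
    linarith
  obtain ⟨τ, hτ, htm⟩ := bas_exp (hS.2 ψ hψ0)
  obtain ⟨δ, hδ⟩ : ∃ δ : ℝ, δ = min (δ₁ / 2) (τ / 2) := ⟨_, rfl⟩
  have hδ0 : 0 < δ := by rw [hδ]; exact lt_min (by linarith) (by linarith)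
  have hδa : δ ≤ δ₁ / 2 := by rw [hδ]; exact min_le_left _ _
  have hδb : δ ≤ τ / 2 := by rw [hδ]; exact min_le_right _ _
  refine ⟨δ, hδ0, ?_⟩
  obtain ⟨J₁, hJ₁⟩ := exists_nat_ge (Real.log 2 / (δ₁ / 2))
  obtain ⟨J₂, hJ₂⟩ := exists_nat_ge (Real.log 2 / (τ / 2))
  obtain ⟨J₃, hJ₃⟩ := exists_nat_ge (Cr / ((1 - v₀) * Real.log 2 / 2))
  obtain ⟨J₄, hJ₄⟩ := exists_nat_ge (Real.log (8 * Cl * Real.exp Cr) / (ζ * Real.log 2 / 2))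
  obtain ⟨J₅, hJ₅⟩ := exists_nat_ge (3 / (ζ - ι))
  refine Bas.mono (max (max J₁ J₂) (max J₃ (max J₄ J₅))) (hG.and htm) ?_
  rintro J hJ F A ⟨hG, htm⟩ z κ b B g₀ G H jq jT W hWB hBA hjq hjT hzq hzT1 hzT2 hwW hWw hWq B' Q
    HQ κQ Pa Pb hB' hR₀ hRn hQd hQp hHd hHp hQH hQn hPa hPb hrat hsz hvis
  have hJ0 : (0 : ℝ) ≤ J := Nat.cast_nonneg J
  have hJr : ∀ {K : ℕ}, K ≤ max (max J₁ J₂) (max J₃ (max J₄ J₅)) → (K : ℝ) ≤ J := fun h =>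
    by exact_mod_cast h.trans hJ
  have j1 : Real.log 2 ≤ δ₁ / 2 * J := by
    have e1 := hJ₁.trans (hJr ((le_max_left _ _).trans (le_max_left _ _)))
    rwa [div_le_iff₀ (by positivity), mul_comm] at e1
  have j2 : Real.log 2 ≤ τ / 2 * J := by
    have e1 := hJ₂.trans (hJr ((le_max_right _ _).trans (le_max_left _ _)))
    rwa [div_le_iff₀ (by positivity), mul_comm] at e1
  have hv1' : 0 < 1 - v₀ := by linarith
  have j3 : Cr ≤ (1 - v₀) * Real.log 2 / 2 * J := by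
    have e1 := hJ₃.trans (hJr ((le_max_left _ _).trans (le_max_right _ _)))
    rwa [div_le_iff₀ (by positivity), mul_comm] at e1
  have j4 : Real.log (8 * Cl * Real.exp Cr) ≤ ζ * Real.log 2 / 2 * J := by
    have e1 := hJ₄.trans (hJr ((le_max_left _ _).trans ((le_max_right _ _).trans
      (le_max_right _ _))))
    rw [div_le_iff₀ (by positivity)] at e1
    linarith
  have hζι : 0 < ζ - ι := by linarith
  have j5 : 3 ≤ (ζ - ι) * J := by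
    have e1 := hJ₅.trans (hJr ((le_max_right _ _).trans ((le_max_right _ _).trans
      (le_max_right _ _))))
    rwa [div_le_iff₀ hζι, mul_comm] at e1
  by_contra hcon
  rw [not_le] at hcon
  have hpA : 0 ≤ Pe F.p A := Pe_nonneg F.isLaw A
  have hpB' : 0 < Pe F.p B' := lt_of_le_of_lt (by positivity) hcon
  have hB'A : Sub B' A := fun ω hω => hBA ω (hB' ω hω)
  -- the windows
  obtain ⟨w₀, hw₀⟩ : ∃ w₀ : ℕ, w₀ = ⌊v₀ * J⌋₊ := ⟨_, rfl⟩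
  rw [← hw₀] at hrat
  have w1 : (w₀ : ℝ) ≤ v₀ * J := by rw [hw₀]; exact Nat.floor_le (mul_nonneg hv0 hJ0)
  have hw₀W : w₀ ≤ W := by
    refine le_trans ?_ hwW
    rw [hw₀]
    exact Nat.floor_le_floor (mul_le_mul_of_nonneg_right hvo hJ0)
  have hwR : (0 : ℝ) ≤ w := by exact_mod_cast hw
  have hw1R : (w : ℝ) < 1 := by exact_mod_cast hw1
  have hWJ : W ≤ J := by
    refine hWw.trans (Nat.floor_le_of_le ?_)
    have := mul_le_mul_of_nonneg_right hw1R.le hJ0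
    linarith
  have hw₀J : w₀ ≤ J := hw₀W.trans hWJ
  -- the times on large parts
  have hTm : ∀ (B₁ : F.Ω → Prop) (hB₁ : 0 < Pe F.p B₁), Sub B₁ B' → Pe F.p B' / 2 ≤ Pe F.p B₁ →
      (Fam.sub F B₁ hB₁).Tm (ψ * J) := by
    intro B₁ hB₁ hsub hhalf
    refine htm B₁ (fun ω hω => hB'A ω (hsub ω hω)) ?_ hB₁
    have e1 : Real.exp (-(τ * J)) ≤ Real.exp (-(δ * J)) / 2 := by
      have e2 : -(τ * (J : ℝ)) ≤ -(δ * J) - Real.log 2 := by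
        have := mul_le_mul_of_nonneg_right hδb hJ0
        linarith
      calc Real.exp (-(τ * J)) ≤ Real.exp (-(δ * J) - Real.log 2) := Real.exp_le_exp.2 e2
        _ = Real.exp (-(δ * J)) / 2 := by rw [Real.exp_sub, Real.exp_log h2']
    have e2 := mul_le_mul_of_nonneg_right e1 hpA
    linarith
  obtain ⟨B'', Sf, c1, c2, c3, c4⟩ := hrem J F B' w₀ Pb (ψ * J) hw₀J hPb
    (mul_nonneg hψ0.le hJ0) hpB' hTm (by
      have e1 : Cr * (ψ * J + 1) = Cr * ψ * J + Cr := by ring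
      rw [e1]
      have e2 := mul_le_mul_of_nonneg_right hψ2 hJ0
      have e3 : ((J : ℝ) - w₀) * Real.log 2 ≥ (1 - v₀) * J * Real.log 2 :=
        mul_le_mul_of_nonneg_right (by linarith) hl2.le
      linarith) (fun ω hω => (hrat ω hω).1)
  -- the polynomial
  obtain ⟨k, hk⟩ : ∃ k : ℕ, k = W - w₀ := ⟨_, rfl⟩
  obtain ⟨mu, hmu⟩ : ∃ mu : LnT F → ℕ → Polynomial ℝ, mu = fun s j =>
      -(rap n (Pa s j) ((Pb (co k s)).comp (afp k s))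
        ((Pb (co k s)).eval ((afp k s).eval 0))) := ⟨_, rfl⟩
  have hcomp : ∀ (q : Polynomial ℝ) (s : LnT F), q.natDegree ≤ D₂ →
      (q.comp (afp k s)).natDegree ≤ D₂ := fun q s hq => by
    refine Polynomial.natDegree_comp_le.trans ?_
    calc q.natDegree * (afp k s).natDegree ≤ D₂ * 1 := Nat.mul_le_mul hq (afp_deg k s)
      _ = D₂ := mul_one _
  have hmud : ∀ s j, (mu s j).natDegree ≤ n * D₂ := fun s j => by
    rw [hmu]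
    beta_reduce
    rw [Polynomial.natDegree_neg]
    exact rap_deg hn1 (hPa _ _) (hcomp _ _ (hPb _)) _
  -- the exponents
  obtain ⟨E, hE⟩ : ∃ E : ℝ, E = Real.exp (Cr * (ψ * J + 1)) := ⟨_, rfl⟩
  have hEp : 0 < E := by rw [hE]; exact Real.exp_pos _
  obtain ⟨X, hX⟩ : ∃ X : ℝ, X = 2 ^ (-((o k₀ - v₀ - ζ) * J)) := ⟨_, rfl⟩
  have hX0 : 0 < X := by rw [hX]; positivity
  have hn0 : (1 : ℝ) ≤ n := by exact_mod_cast hn1
  have hgap : 0 ≤ o k₀ - v₀ - ζ := by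
    by_contra h7
    rw [not_le] at h7
    have h8 : (n : ℝ) * (o k₀ - v₀ - ζ) < 0 := mul_neg_of_pos_of_neg (by linarith) h7
    linarith
  have hX1 : X ≤ 1 := by
    rw [hX]
    exact Real.rpow_le_one_of_one_le_of_nonpos (by norm_num) (by
      have := mul_nonneg hgap hJ0
      linarith)
  have hEX : 4 * Cl * E ≤ X * 2 ^ k := by
    have e1 : E ≤ Real.exp Cr * (2 : ℝ) ^ (ζ * J / 2) := by
      rw [hE, Real.rpow_def_of_pos h2', ← Real.exp_add]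
      refine Real.exp_le_exp.2 ?_
      have := mul_le_mul_of_nonneg_right hψ1 hJ0
      have e2 : Cr * (ψ * J + 1) = Cr * ψ * J + Cr := by ring
      have e3 : Real.log 2 * (ζ * J / 2) = ζ * Real.log 2 / 2 * J := by ring
      rw [e2, e3]
      linarith
    have e2 : 8 * Cl * Real.exp Cr ≤ (2 : ℝ) ^ (ζ * J / 2) := by
      rw [Real.rpow_def_of_pos h2', ← Real.log_le_iff_le_exp (by
        have := Real.exp_pos Cr
        have : 0 < Cl := by linarith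
        positivity)]
      refine j4.trans (le_of_eq ?_)
      ring
    have e3 : (2 : ℝ) ^ (ζ * J / 2) * (2 : ℝ) ^ (ζ * J / 2) = 2 ^ (ζ * J) := by
      rw [← Real.rpow_add h2']
      congr 1
      ring
    have e4 : 8 * Cl * E ≤ (2 : ℝ) ^ (ζ * J) := by
      rw [← e3]
      have e5 : 8 * Cl * E ≤ 8 * Cl * (Real.exp Cr * (2 : ℝ) ^ (ζ * J / 2)) :=
        mul_le_mul_of_nonneg_left e1 (by linarith)
      refine e5.trans ?_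
      calc 8 * Cl * (Real.exp Cr * (2 : ℝ) ^ (ζ * J / 2)) =
          8 * Cl * Real.exp Cr * (2 : ℝ) ^ (ζ * J / 2) := by ring
        _ ≤ _ := mul_le_mul_of_nonneg_right e2 (by positivity)
    have e5 : (2 : ℝ) ^ ((o k₀ - v₀) * J - 1) ≤ 2 ^ k := by
      rw [← Real.rpow_natCast]
      refine Real.rpow_le_rpow_of_exponent_le (by norm_num) ?_
      have e6 : o k₀ * J < ⌊o k₀ * J⌋₊ + 1 := Nat.lt_floor_add_one _
      have e7 : (⌊o k₀ * J⌋₊ : ℝ) ≤ W := by exact_mod_cast hwW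
      rw [hk, Nat.cast_sub hw₀W]
      have e8 : (o k₀ - v₀) * (J : ℝ) = o k₀ * J - v₀ * J := by ring
      rw [e8]
      linarith
    have e6 : X * (2 : ℝ) ^ ((o k₀ - v₀) * J - 1) = 2 ^ (ζ * J) / 2 := by
      rw [hX, ← Real.rpow_add h2']
      have e7 : -((o k₀ - v₀ - ζ) * (J : ℝ)) + ((o k₀ - v₀) * J - 1) = ζ * J - 1 := by ring
      rw [e7, Real.rpow_sub_one h2'.ne']
    have e7 := mul_le_mul_of_nonneg_left e5 hX0.le
    rw [e6] at e7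
    linarith
  obtain ⟨T₁, hT₁⟩ : ∃ T₁ : ℝ, T₁ = 2 ^ (-(s₁ * J)) := ⟨_, rfl⟩
  obtain ⟨T₂, hT₂⟩ : ∃ T₂ : ℝ, T₂ = 2 ^ (ι * J) := ⟨_, rfl⟩
  have hT₁0 : 0 < T₁ := by rw [hT₁]; positivity
  have hT₁1 : T₁ ≤ 1 := by
    rw [hT₁]
    exact Real.rpow_le_one_of_one_le_of_nonpos (by norm_num) (by
      have := mul_nonneg hs₁ hJ0
      linarith)
  have hT₂1 : 1 ≤ T₂ := by
    rw [hT₂]
    exact Real.one_le_rpow (by norm_num) (mul_nonneg hι0 hJ0)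
  rw [← hT₁] at hvis hrat
  rw [← hT₂] at hsz
  have hXn : T₂ * X ^ n ≤ T₁ := by
    rw [hT₂, hX, hT₁, ← Real.rpow_natCast, ← Real.rpow_mul h2'.le, ← Real.rpow_add h2']
    refine Real.rpow_le_rpow_of_exponent_le (by norm_num) ?_
    have := mul_le_mul_of_nonneg_right hns hJ0
    have e1 : -((o k₀ - v₀ - ζ) * (J : ℝ)) * n = -(n * (o k₀ - v₀ - ζ) * J) := by ring
    rw [e1]
    linarith
  have hXn' : (T₂ + T₁) * X ^ n ≤ 2 * T₁ := by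
    have e1 : T₁ * X ^ n ≤ T₂ * X ^ n :=
      mul_le_mul_of_nonneg_right (hT₁1.trans hT₂1) (by positivity)
    linarith
  have h4T : 4 * T₂ ≤ 2 ^ ⌊ζ * J⌋₊ := by
    have e1 : ζ * J < ⌊ζ * J⌋₊ + 1 := Nat.lt_floor_add_one _
    have e2 : (4 : ℝ) * T₂ = 2 ^ (2 + ι * J) := by
      rw [hT₂, Real.rpow_add h2']
      norm_num
    rw [e2, ← Real.rpow_natCast]
    refine Real.rpow_le_rpow_of_exponent_le (by norm_num) ?_
    have e3 : (ζ - ι) * (J : ℝ) = ζ * J - ι * J := by ring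
    rw [e3] at j5
    linarith
  have hT₁f : T₁ ≤ 1 / 2 ^ ⌊s₁ * J⌋₊ := by
    rw [hT₁, Real.rpow_neg h2'.le, one_div]
    refine inv_anti₀ (by positivity) ?_
    rw [← Real.rpow_natCast]
    exact Real.rpow_le_rpow_of_exponent_le (by norm_num) (Nat.floor_le (mul_nonneg hs₁ hJ0))
  have h4T₁ : 4 * T₁ ≤ 2 ^ ⌊ζ * J⌋₊ / 2 ^ ⌊s₁ * J⌋₊ := by
    have e1 : 4 * T₁ ≤ 4 * (1 / 2 ^ ⌊s₁ * J⌋₊) := mul_le_mul_of_nonneg_left hT₁f (by norm_num)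
    refine e1.trans ?_
    rw [mul_one_div]
    refine div_le_div_of_nonneg_right ?_ (by positivity)
    linarith
  have hB''B : Sub B'' B := fun ω hω => hB' ω (c1 ω hω)
  -- the closed gradient
  have key : ∀ ω, B'' ω → ∀ j < i, |gnh F c i (g₀ k₀) Q (G nd) ω j -
      (mu (slam F W ω) j).eval (rt F W ω)| ≤ 3 * T₁ := by
    intro ω hω j hj
    obtain ⟨d1, d2⟩ := hrat ω (c1 ω hω)
    obtain ⟨d3, d4⟩ := c4 ω hω
    have e1 : co k (slam F W ω) = slam F w₀ ω := by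
      rw [hk]
      exact co_slam F hw₀W hWJ ω
    have e2 : (afp k (slam F W ω)).eval (rt F W ω) = rt F w₀ ω := by
      rw [hk]
      exact afp_eval F hw₀W hWJ ω
    obtain ⟨τ₀, hτ₀⟩ : ∃ τ₀, τ₀ = (afp k (slam F W ω)).eval 0 := ⟨_, rfl⟩
    have e3 : |rt F w₀ ω - τ₀| ≤ 1 / 2 ^ k := by
      rw [hτ₀, hk]
      exact afp_dist F hw₀W hWJ ω
    have e4 : τ₀ ∈ Set.Icc (0 : ℝ) 1 := by
      rw [hτ₀]
      exact afp_zero _ _
    obtain ⟨bo, hbo⟩ : ∃ bo, bo = (Pb (slam F w₀ ω)).eval (rt F w₀ ω) := ⟨_, rfl⟩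
    obtain ⟨b₀, hb₀⟩ : ∃ b₀, b₀ = (Pb (slam F w₀ ω)).eval τ₀ := ⟨_, rfl⟩
    obtain ⟨ao, hao⟩ : ∃ ao, ao = (Pa (slam F W ω) j).eval (rt F W ω) := ⟨_, rfl⟩
    have d5 := d2 j hj
    rw [← hbo, ← hao] at d5
    rw [← hbo] at d1 d4
    have e5 := hlip (Pb (slam F w₀ ω)) (Sf (slam F w₀ ω)) (hPb _) (c3 _) (rt F w₀ ω)
      (rt_mem F w₀ ω) τ₀ e4
    rw [← hbo, ← hb₀] at e5
    have e6 : |bo - b₀| ≤ Cl * Sf (slam F w₀ ω) * (1 / 2 ^ k) :=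
      e5.trans (mul_le_mul_of_nonneg_left e3 (mul_nonneg (by linarith) d3.le))
    obtain ⟨f1, f2, f3⟩ := rat_err (n := n) d1 d3.le (by rw [hE]; exact d4) (by linarith : 0 ≤ Cl)
      hEp.le e6 hEX hX1 hX0.le d5 (hsz ω (c1 ω hω) j hj) hT₁0.le
    have e7 : (mu (slam F W ω) j).eval (rt F W ω) = -(ao / bo - ao / bo * (1 - bo / b₀) ^ n) := by
      have g1 : ((Pb (slam F w₀ ω)).comp (afp k (slam F W ω))).eval (rt F W ω) = bo := by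
        rw [Polynomial.eval_comp, e2, hbo]
      have g3 := rap_eval n (Pa (slam F W ω) j)
        ((Pb (slam F w₀ ω)).comp (afp k (slam F W ω))) (τ := rt F W ω) f1 (by rw [g1]; exact d1)
      rw [g1, ← hao] at g3
      rw [hmu]
      beta_reduce
      rw [e1, ← hτ₀, ← hb₀, Polynomial.eval_neg]
      congr 1
      linarith
    rw [e7]
    have e8 : gnh F c i (g₀ k₀) Q (G nd) ω j - -(ao / bo - ao / bo * (1 - bo / b₀) ^ n) =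
        (gnh F c i (g₀ k₀) Q (G nd) ω j + ao / bo) - ao / bo * (1 - bo / b₀) ^ n := by ring
    rw [e8]
    refine (abs_sub _ _).trans ?_
    have e9 := f3.trans hXn'
    linarith
  have hfin := hG z κ b B g₀ G H jq jT W hWB hBA hjq hjT hzq hzT1 hzT2 hwW hWw hWq B'' Q HQ κQ mu
    hB''B (hR₀.sub c1) (hRn.sub c1) hQd hQp hHd hHp (fun ω hω => hQH ω (c1 ω hω))
    (fun ω hω => hQn ω (c1 ω hω)) hmud
    (fun ω hω j hj => (key ω hω j hj).trans (by linarith))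
    (fun ω hω j hj => by
      have e1 := key ω hω j hj
      have e2 := hsz ω (c1 ω hω) j hj
      have e3 : (mu (slam F W ω) j).eval (rt F W ω) = gnh F c i (g₀ k₀) Q (G nd) ω j -
        (gnh F c i (g₀ k₀) Q (G nd) ω j - (mu (slam F W ω) j).eval (rt F W ω)) := by ring
      rw [e3]
      refine (abs_sub _ _).trans ?_
      linarith)
    (fun ω ν hω hν hpt j hj => (hvis ω ν (c1 ω hω) (c1 ν hν) hpt j hj).trans (by linarith))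
  have e1 : 2 * Real.exp (-(δ₁ * J)) ≤ Real.exp (-(δ * J)) := by
    have e2 : Real.log 2 + -(δ₁ * (J : ℝ)) ≤ -(δ * J) := by
      have := mul_le_mul_of_nonneg_right hδa hJ0
      linarith
    calc 2 * Real.exp (-(δ₁ * J)) = Real.exp (Real.log 2 + -(δ₁ * J)) := by
          rw [Real.exp_add, Real.exp_log h2']
      _ ≤ _ := Real.exp_le_exp.2 e2
  have e2 := mul_le_mul_of_nonneg_right e1 hpA
  linarith

end Pool.ND6
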