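import Pool.Agent.H6.ND3.Adr

/-!
# A linear relation for three lines through a point

`alg2`: a linear relation between the velocities of three lines in general position gives the natural
components of the gradient. `dd3`: the derivative of a chart over two coordinates.
-/

set_option autoImplicit false

namespace Pool.ND6

open Finset Real MvPolynomial
open Pool.Agent.H49.Ent Pool.Agent.H32.Dense Pool.STK Pool.KA Pool.KSAT Pool.K2S Pool.PB Pool.S6C
open Pool.GEN Pool.CHT Pool.CHX Pool.ISO Pool.D2R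

variable {m : ℕ}

/-- **Three lines in general position.** -/
theorem alg2 {α a0 a1 β κ0 κ1 ρ κ2 σ0 σ1 τ c0 c1 ε er U η g0 g1 : ℝ} {p q f : Fin 3 → ℝ}
    (hg0 : 0 < g0) (hg1 : 0 < g1) (hη : 0 < η)
    (hrel : ∀ a, |α + a0 * p a + a1 * q a + β * f a| ≤ ε)
    (hf : ∀ a, |f a - (κ2 + σ0 * p a + σ1 * q a) -
      (τ + c0 * (p a - κ0) + c1 * (q a - (κ1 + ρ * p a)))| ≤ er)
    (hX : ∀ a, |g0 * (p a - κ0)| ≤ U) (hY : ∀ a, |g1 * (q a - (κ1 + ρ * p a))| ≤ U)
    (hdet : η ≤ |(g0 * (p 0 - κ0) - g0 * (p 2 - κ0)) *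
      (g1 * (q 1 - (κ1 + ρ * p 1)) - g1 * (q 2 - (κ1 + ρ * p 2))) -
      (g0 * (p 1 - κ0) - g0 * (p 2 - κ0)) *
      (g1 * (q 0 - (κ1 + ρ * p 0)) - g1 * (q 2 - (κ1 + ρ * p 2)))|) :
    |c1 * β + (a1 + β * σ1)| ≤ g1 * (8 * U * (ε + |β| * er) / η) ∧
      |c0 * β + (a0 + β * σ0 + (a1 + β * σ1) * ρ)| ≤ g0 * (8 * U * (ε + |β| * er) / η) := by
  have hU : 0 ≤ U := (abs_nonneg _).trans (hX 0)
  obtain ⟨u0, hu0⟩ : ∃ u0, u0 = c0 * β + (a0 + β * σ0 + (a1 + β * σ1) * ρ) := ⟨_, rfl⟩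
  obtain ⟨u1, hu1⟩ : ∃ u1, u1 = c1 * β + (a1 + β * σ1) := ⟨_, rfl⟩
  rw [← hu0, ← hu1]
  obtain ⟨E, hE⟩ : ∃ E, E = ε + |β| * er := ⟨_, rfl⟩
  -- the relation for one line
  obtain ⟨cc, hcc⟩ : ∃ cc, cc = α + β * κ2 + β * τ - β * c0 * κ0 - β * c1 * κ1 +
    u0 * κ0 + u1 * κ1 := ⟨_, rfl⟩
  have h1 : ∀ a, |cc + u0 * (p a - κ0) + u1 * (q a - (κ1 + ρ * p a))| ≤ E := by
    intro a
    have e1 : cc + u0 * (p a - κ0) + u1 * (q a - (κ1 + ρ * p a)) =
        (α + a0 * p a + a1 * q a + β * f a) - β * (f a - (κ2 + σ0 * p a + σ1 * q a) -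
          (τ + c0 * (p a - κ0) + c1 * (q a - (κ1 + ρ * p a)))) := by
      rw [hcc, hu0, hu1]
      ring
    rw [e1, hE]
    refine (abs_sub _ _).trans (add_le_add (hrel a) ?_)
    rw [abs_mul]
    exact mul_le_mul_of_nonneg_left (hf a) (abs_nonneg _)
  have hE0 : 0 ≤ E := (abs_nonneg _).trans (h1 0)
  obtain ⟨x, hx⟩ : ∃ x : Fin 3 → ℝ, x = fun a => g0 * (p a - κ0) := ⟨_, rfl⟩
  obtain ⟨y, hy⟩ : ∃ y : Fin 3 → ℝ, y = fun a => g1 * (q a - (κ1 + ρ * p a)) := ⟨_, rfl⟩
  have hxa : ∀ a, x a = g0 * (p a - κ0) := fun a => by rw [hx]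
  have hya : ∀ a, y a = g1 * (q a - (κ1 + ρ * p a)) := fun a => by rw [hy]
  rw [← hxa, ← hxa, ← hxa, ← hya, ← hya, ← hya] at hdet
  have hX' : ∀ a, |x a| ≤ U := fun a => by rw [hxa]; exact hX a
  have hY' : ∀ a, |y a| ≤ U := fun a => by rw [hya]; exact hY a
  obtain ⟨v0, hv0⟩ : ∃ v0, v0 = u0 / g0 := ⟨_, rfl⟩
  obtain ⟨v1, hv1⟩ : ∃ v1, v1 = u1 / g1 := ⟨_, rfl⟩
  have h2 : ∀ a, |v0 * (x a - x 2) + v1 * (y a - y 2)| ≤ 2 * E := by
    intro a
    have e1 : v0 * (x a - x 2) + v1 * (y a - y 2) =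
        (cc + u0 * (p a - κ0) + u1 * (q a - (κ1 + ρ * p a))) -
        (cc + u0 * (p 2 - κ0) + u1 * (q 2 - (κ1 + ρ * p 2))) := by
      rw [hv0, hv1, hxa, hxa, hya, hya]
      field_simp
      ring
    rw [e1]
    refine (abs_sub _ _).trans ?_
    have := h1 a
    have := h1 2
    linarith
  have hyy : ∀ a b, |y a - y b| ≤ 2 * U := fun a b => by
    refine (abs_sub _ _).trans ?_
    have := hY' a
    have := hY' b
    linarith
  have hxx : ∀ a b, |x a - x b| ≤ 2 * U := fun a b => by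
    refine (abs_sub _ _).trans ?_
    have := hX' a
    have := hX' b
    linarith
  obtain ⟨Dt, hDt⟩ : ∃ Dt, Dt = (x 0 - x 2) * (y 1 - y 2) - (x 1 - x 2) * (y 0 - y 2) := ⟨_, rfl⟩
  rw [← hDt] at hdet
  have k0 : |v0| * |Dt| ≤ 8 * U * E := by
    rw [← abs_mul]
    have e1 : v0 * Dt = (v0 * (x 0 - x 2) + v1 * (y 0 - y 2)) * (y 1 - y 2) -
        (v0 * (x 1 - x 2) + v1 * (y 1 - y 2)) * (y 0 - y 2) := by rw [hDt]; ring
    rw [e1]
    refine (abs_sub _ _).trans ?_
    rw [abs_mul, abs_mul]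
    have a1 := mul_le_mul (h2 0) (hyy 1 2) (abs_nonneg _) (by linarith)
    have a2 := mul_le_mul (h2 1) (hyy 0 2) (abs_nonneg _) (by linarith)
    linarith
  have k1 : |v1| * |Dt| ≤ 8 * U * E := by
    rw [← abs_mul]
    have e1 : v1 * Dt = (v0 * (x 1 - x 2) + v1 * (y 1 - y 2)) * (x 0 - x 2) -
        (v0 * (x 0 - x 2) + v1 * (y 0 - y 2)) * (x 1 - x 2) := by rw [hDt]; ring
    rw [e1]
    refine (abs_sub _ _).trans ?_
    rw [abs_mul, abs_mul]
    have a1 := mul_le_mul (h2 1) (hxx 0 2) (abs_nonneg _) (by linarith)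
    have a2 := mul_le_mul (h2 0) (hxx 1 2) (abs_nonneg _) (by linarith)
    linarith
  have hfin : ∀ v : ℝ, |v| * |Dt| ≤ 8 * U * E → |v| ≤ 8 * U * E / η := by
    intro v hv
    rw [le_div_iff₀ hη]
    refine le_trans ?_ hv
    exact mul_le_mul_of_nonneg_left hdet (abs_nonneg _)
  have e0 : u0 = g0 * v0 := by rw [hv0]; field_simp
  have e1 : u1 = g1 * v1 := by rw [hv1]; field_simp
  rw [e0, e1, abs_mul, abs_mul, abs_of_pos hg0, abs_of_pos hg1, ← hE]
  exact ⟨mul_le_mul_of_nonneg_left (hfin v1 k1) hg1.le,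
    mul_le_mul_of_nonneg_left (hfin v0 k0) hg0.le⟩

/-- The derivative of a chart over two coordinates. -/
theorem dd3 {c : ℕ → Fin m} (hc : c 0 ≠ c 1) {Q : MvPolynomial (Option (Fin m)) ℝ}
    (hQ : DepC c 2 Q) (x V : Option (Fin m) → ℝ) : dd Q x V = eval x (pderiv none Q) * V none +
      eval x (pderiv (some (c 0)) Q) * V (some (c 0)) +
      eval x (pderiv (some (c 1)) Q) * V (some (c 1)) := by
  classical
  obtain ⟨W, hW⟩ : ∃ W : Option (Fin m) → ℝ, W = fun o => V none * (if o = none then 1 else 0) +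
    V (some (c 0)) * (if o = some (c 0) then 1 else 0) +
    V (some (c 1)) * (if o = some (c 1) then 1 else 0) := ⟨_, rfl⟩
  have h01 : some (c 0) ≠ some (c 1) := fun h => hc (Option.some_injective _ h)
  have h1 : dd Q x V = dd Q x W := by
    refine dd_congr hQ x ?_ fun l hl => ?_
    · rw [hW]
      simp
    · rw [hW]
      rcases Nat.lt_or_ge l 1 with h2 | h2
      · have : l = 0 := by omega
        subst this
        simp [h01]
      · have : l = 1 := by omega
        subst this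
        simp [h01.symm]
  rw [h1]
  unfold dd
  rw [hW]
  have h2 : ∀ o : Option (Fin m), eval x (pderiv o Q) * (V none * (if o = none then 1 else 0) +
      V (some (c 0)) * (if o = some (c 0) then 1 else 0) +
      V (some (c 1)) * (if o = some (c 1) then 1 else 0)) =
      (if o = none then eval x (pderiv o Q) * V none else 0) +
      (if o = some (c 0) then eval x (pderiv o Q) * V (some (c 0)) else 0) +
      (if o = some (c 1) then eval x (pderiv o Q) * V (some (c 1)) else 0) := by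
    intro o
    split_ifs <;> ring
  rw [Finset.sum_congr rfl fun o _ => h2 o, Finset.sum_add_distrib, Finset.sum_add_distrib,
    Finset.sum_ite_eq', Finset.sum_ite_eq', Finset.sum_ite_eq']
  simp

/-- The derivative of a chart over one coordinate. -/
theorem dd2 {c : ℕ → Fin m} (hc : c 0 ≠ c 1) {Q : MvPolynomial (Option (Fin m)) ℝ}
    (hQ : DepC c 1 Q) (x V : Option (Fin m) → ℝ) : dd Q x V = eval x (pderiv none Q) * V none +
      eval x (pderiv (some (c 0)) Q) * V (some (c 0)) := by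
  have hQ2 : DepC c 2 Q := fun b b' h1 h2 => hQ b b' h1 fun l hl => h2 l (by omega)
  have h1 := dd3 hc hQ2 x V
  have h2 := dd3 hc hQ2 x (Function.update V (some (c 1)) 0)
  have h01 : some (c 0) ≠ some (c 1) := fun h => hc (Option.some_injective _ h)
  have h3 : dd Q x V = dd Q x (Function.update V (some (c 1)) 0) := by
    refine dd_congr hQ x ?_ fun l hl => ?_
    · rw [Function.update_of_ne (by simp)]
    · have : l = 0 := by omega
      subst this
      rw [Function.update_of_ne h01]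
  rw [h3, h2, Function.update_of_ne (by simp), Function.update_of_ne h01, Function.update_self]
  ring

/-- The derivative of a chart over no coordinate. -/
theorem dd1 {c : ℕ → Fin m} (hc : c 0 ≠ c 1) {Q : MvPolynomial (Option (Fin m)) ℝ}
    (hQ : DepC c 0 Q) (x V : Option (Fin m) → ℝ) :
    dd Q x V = eval x (pderiv none Q) * V none := by
  have hQ1 : DepC c 1 Q := fun b b' h1 h2 => hQ b b' h1 fun l hl => h2 l (by omega)
  have h2 := dd2 hc hQ1 x (Function.update V (some (c 0)) 0)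
  have h3 : dd Q x V = dd Q x (Function.update V (some (c 0)) 0) := by
    refine dd_congr hQ x ?_ fun l hl => ?_
    · rw [Function.update_of_ne (by simp)]
    · omega
  rw [h3, h2, Function.update_of_ne (by simp), Function.update_self]
  ring

end Pool.ND6
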