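import Pool.Agent.H6.ND3.Thn
import Pool.Agent.H92.V0F.Vsh
import Pool.Agent.H92.V0F.Vsb
import Pool.Agent.H23.D2.Bgr
import Pool.Agent.H23.D2.Adc
import Pool.Agent.H3.D2G.RecG

/-!
# No linear relation between the velocities of three lines: the record

`nd_rec`: at a record whose place two is thin, for a law comparable with the law of the family, the
probability of `RelE` is small.
-/

set_option autoImplicit false

namespace Pool.ND6

open Finset Real MvPolynomial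
open Pool.Agent.H49.Ent Pool.Agent.H32.Dense Pool.STK Pool.KA Pool.KSAT Pool.K2S Pool.PB Pool.S6C
open Pool.GEN Pool.CHT Pool.CHX Pool.D2R Pool.PKG
open Pool.FLF (Fam.sub)
open Pool.PB.Trl (rt rt_mem t_rt)
open Pool.LBT (ThrOf)
open Pool.ISO (lvN)
open Pool.V0F (chV chV_zero chV_mono chV_succ zzV radii_ok chw_step v0_nmR)

variable {m : ℕ}

/-- **The gradient of the deep chart** along a chain of windows: size and visibility. -/
theorem grb (m D : ℕ) : ∃ C : ℕ, 1 ≤ C ∧ ∀ {J : ℕ} {F : Fam m J} {c : ℕ → Fin m}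
    {Dr N M : ℕ} {C₀ a Eb ηm : ℝ} {o η σ : ℕ → ℝ} {lv b : ℕ → ℕ → ℝ}
    {κ : ℝ} {z : ℕ → ℕ → ℕ} {B : F.Ω → Prop} {g₀ : ℕ → ℕ → ℕ}
    {G : ℕ → PtT F → ℕ → MvPolynomial (Option (Fin m)) ℝ}
    {H : ℕ → LnT F → ℕ → MvPolynomial (Option (Fin m)) ℝ}
    (_ : WinB F c 2 D Dr N M C₀ a Eb ηm o η σ lv b κ z B g₀ G H)
    {n q X Y : ℕ} {s : ℝ}, Set.InjOn c (Set.Iio 3) → 2 ≤ M → n ≤ N →
    (∀ k < n, z k 0 = ⌊o (k + 1) * J⌋₊ - ⌊o k * J⌋₊ ∧ o k ≤ o (k + 1)) →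
    z 0 1 + 1 ≤ z 0 2 →
    C₀ * (ηm * J) ≤ Y → 3 ≤ Y → (n : ℝ) ≤ 2 ^ Y → 1 ≤ s →
    (∀ k < n, ∀ l ≤ 2, |(lv (k + 1) l - lv k l) * J| ≤ Y) →
    (∀ k < n, s * ((o (k + 1) - o k) * J) ≤ Y) →
    (∀ k k', k ≤ k' → k' ≤ n → ∀ l < 2, (lv k' l - lv k l) * J ≤ (o k' - o k) * J + Y) →
    (∀ k ≤ n, s * ((o k - o 0) * J) ≤ (lv k 2 - lv 0 2) * J + Y) →
    (o n - o 0) * J + 3 ≤ q → (q : ℝ) + X ≤ s * ((o n - o 0) * J) + Y → X ≤ q →
    (X : ℝ) ≤ (s - 1) * ((o n - o 0) * J) + Y →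
    (∀ l ≤ 2, (Eb + lv 0 l) * J + z 0 1 + q + C * Y ≤ J) →
    (∀ ω, B ω → ∀ j < 2, |gnh F c 2 (g₀ 0) (G 0) (G n) ω j| ≤ 2 ^ (C * Y)) ∧
    ∀ ω ν, B ω → B ν → ptr F J ω = ptr F J ν → ∀ j < 2,
      |gnh F c 2 (g₀ 0) (G 0) (G n) ω j - gnh F c 2 (g₀ 0) (G 0) (G n) ν j| ≤
        2 ^ (C * Y) / 2 ^ X := by
  obtain ⟨C₁, hC₁, hg⟩ := winb_grd D 2
  obtain ⟨C₂, hC₂, hcell⟩ := winb_cell m D 2
  refine ⟨C₁ + C₂, by omega, ?_⟩
  intro J F c Dr N M C₀ a Eb ηm o η σ lv b κ z B g₀ G H W n q X Y s hc hM hn hz hz12 hY hY3 hnY hs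
    hl1 hl2 hl3 hl4 hq hqX hXq hX hroom
  have hJ : (0 : ℝ) ≤ J := Nat.cast_nonneg J
  have hYY : (2 : ℝ) ^ (C₁ * Y) ≤ 2 ^ ((C₁ + C₂) * Y) :=
    pow_le_pow_right₀ (by norm_num) (Nat.mul_le_mul_right _ (by omega))
  obtain ⟨h1, h2⟩ := hg W (f := fun k => k) (jj := fun _ => 0) (n := n) (i := 2) (k₀ := 0)
    (ks := n) (q := q) (X := X) (Y := Y) (S := 1) (b' := s) hc le_rfl (fun k hk => hk.trans hn)
    (fun k hk => ⟨Nat.zero_le _, (hz k hk).1, (hz k hk).2⟩) hY hY3 hnY zero_le_one hs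
    (fun k hk l hl => by
      have h3 := abs_le.1 (hl1 k hk l hl)
      refine ⟨h3.2, ?_⟩
      have h4 : (lv k l - lv (k + 1) l) * (J : ℝ) = -((lv (k + 1) l - lv k l) * J) := by ring
      rw [h4]
      linarith [h3.1])
    hl2 (fun k k' hk hk' l hl _ => by
      rw [one_mul]
      exact hl3 k k' hk hk' l hl) hl4 (by rw [one_mul]; exact hq) hqX hXq le_rfl hX
  refine ⟨fun ω hω j hj => (h1 ω hω j hj (Nat.zero_le _)).trans hYY, ?_⟩
  intro ω ν hω hν hpt j hj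
  have hcl := hcell W (k₀ := 0) (jq := 1) (jT := 2) (q := q) (Y := Y) hc (Nat.zero_le _)
    (by omega) hM hz12 hY (by omega) (fun l hl => by
      refine le_trans ?_ (hroom l hl)
      have h3 : (C₂ : ℝ) * Y ≤ ((C₁ + C₂ : ℕ) : ℝ) * Y := by
        refine mul_le_mul_of_nonneg_right ?_ (Nat.cast_nonneg _)
        exact_mod_cast Nat.le_add_left _ _
      linarith) ω ν hω hν hpt
  have ht : F.t ω = F.t ν := (bt_near hpt).2.1
  have h3 := (h2 ω ν hω hν ht (fun l hl => absurd hl (Nat.not_lt_zero l))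
    (fun j hj _ => hcl j (by omega))).1 (fun k _ l _ => by rw [hpt]) j hj (Nat.zero_le _)
  exact h3.trans (div_le_div_of_nonneg_right hYY (by positivity))

/-- **The ball windows** of the chain, for the target at the place `i`. -/
theorem rec_balI {S : PCl m} {al : ℝ} {g₀ : ℝ → ℝ} {P : List (Fin m) × Fin m → ℝ → ℝ → ℝ}
    {θ : ℝ} {P₂ : ℕ → List (Fin m) × Fin m → ℝ → ℝ → ℝ} {θ₂ Eb e₂ : ℕ → ℝ}
    {c : ℕ → Fin m} {Pt : ℝ → ℝ → ℝ} {r : ℝ → ℝ} {h Kn g : ℝ} {L T : ℕ → ℝ → ℝ → ℝ}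
    {Sl : ℕ → ℝ} {κ : ℕ → Kg} {G : Set ℝ} {S₀ N : ℕ} {A V : ℕ → ℝ} {S₂ N' : ℕ} {V' : ℕ → ℝ}
    {K ε q t : ℝ}
    (R : RecG S al g₀ P θ P₂ θ₂ Eb e₂ c Pt r h Kn g L T Sl κ G S₀ N A V S₂ N' V' K ε q t)
    {i : ℕ} (hi1 : 1 ≤ i) (hi : i < m) {k : ℕ} (hk : k < N') {x : ℝ} (hx : V' k < x)
    (hxK : x - V' k ≤ 3 * K) (hVK : |V' k| ≤ K) :
    BalD S P θ c i (L i) (t + x * q) (t + V' k * q) S₀ (Eb i) := by
  have W := R.tg i hi1 hi
  have hq := R.q0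
  have h1 : V' k * q < x * q := mul_lt_mul_of_pos_right hx hq
  obtain ⟨ρ, vs, e, e₀, E, sg, Q, k1, k2, -⟩ := W.ptc k hk
  refine ⟨by linarith, ⟨ρ, vs, e, e₀, E, sg, Q, k1, k2⟩, fun l hl => ?_⟩
  have h3 := W.room l hl (t + V' k * q) (by
    rw [add_sub_cancel_left, abs_mul, abs_of_pos hq]
    exact mul_le_mul_of_nonneg_right hVK hq.le)
  have h4 : lvN P c i (L i) l (t + V' k * q) (t + V' k * q) =
      L l (t + V' k * q) (t + V' k * q) := by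
    rw [← R.lv_at hi hl]
  have h5 : (x - V' k) * q ≤ 3 * K * q := mul_le_mul_of_nonneg_right hxK hq.le
  rw [h4]
  linarith

/-- **No relation at a record** whose place two is thin. -/
theorem nd_rec (m S₀ D₂ : ℕ) (hm : 3 ≤ m) (hS₀ : 1 ≤ S₀) {s ξ θ₁ : ℝ} (hs : 1 < s)
    (hξ : 0 < ξ) (hθ₁ : 0 < θ₁) : ∃ (ζ ε₁ : ℝ) (M₀ : ℕ), 0 < ζ ∧ ζ ≤ ξ ∧ ζ ≤ 1 ∧ 0 < ε₁ ∧
    1 ≤ M₀ ∧ ∀ {S : PCl m} {al : ℝ} {g₀ : ℝ → ℝ} {P : List (Fin m) × Fin m → ℝ → ℝ → ℝ}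
    {θ : ℝ} {P₂ : ℕ → List (Fin m) × Fin m → ℝ → ℝ → ℝ} {θ₂ Eb e₂ : ℕ → ℝ}
    {c : ℕ → Fin m} {Pt : ℝ → ℝ → ℝ} {r : ℝ → ℝ} {h Kn g : ℝ} {L T : ℕ → ℝ → ℝ → ℝ}
    {Sl : ℕ → ℝ} {κ : ℕ → Kg} {G : Set ℝ} {N₀ : ℕ} {A V : ℕ → ℝ} {S₂ N' : ℕ} {V' : ℕ → ℝ}
    {K ε q t : ℝ}
    (_ : RecG S al g₀ P θ P₂ θ₂ Eb e₂ c Pt r h Kn g L T Sl κ G S₀ N₀ A V S₂ N' V' K ε q t)
    {y : ℝ}, Sl 1 = 1 → Sl 2 = s → κ 2 = .thin → 0 ≤ ε → ε ≤ ε₁ → |y| + 4 ≤ K →
    (∃ k < N₀, A k = y + 1 ∧ V k = y + ζ / 2) → (∀ k ≤ M₀, ∃ j < N', V' j = y + k / M₀) →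
    ∃ K₁ : ℝ, 0 < K₁ ∧ ∀ {v₀ : ℝ}, 0 ≤ v₀ → v₀ + θ₁ * q ≤ t + y * q → ∀ c₁ Mq : ℝ, 0 < c₁ →
    0 < Mq → ∃ e₀ : ℝ, 0 < e₀ ∧ Bas S (fun J F A => ∃ B : F.Ω → Prop, Sub B A ∧
      Pe F.p A ≤ K₁ * Pe F.p B ∧ ∀ (Ω₃ 𝒯 : Type) [Fintype Ω₃] (Q : Ω₃ → ℝ) (om : Ω₃ → F.Ω)
        (tp : Ω₃ → 𝒯) (PA : 𝒯 → ℕ → Polynomial ℝ), IsLaw Q →
      (∀ t l, (PA t l).natDegree ≤ D₂) → (∀ ω, law Q om ω * Pe F.p A ≤ Mq * F.p ω) →
      CH Q om (fun x => slam F ⌊v₀ * J⌋₊ (om x)) ≤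
        CH Q om (fun x => (tp x, slam F ⌊v₀ * J⌋₊ (om x))) + e₀ * J →
      law Q (fun x => B (om x) ∧ RelE F c B ⌊v₀ * J⌋₊
        (2 ^ ((2 * (t + y * q) - L 0 (t + y * q) (t + y * q) -
          L 1 (t + y * q) (t + y * q) - ζ * q) * J))
        (2 ^ ((L 2 (t + y * q) (t + y * q) - (t + y * q) + ξ * q) * J)) (PA (tp x)) (om x))
        True < c₁) := by
  classical
  obtain ⟨D, hD, hwin⟩ := winb_con m 2 S₀ (by norm_num) hS₀
  obtain ⟨CB, hCB, hwin⟩ := hwin D le_rfl D le_rfl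
  obtain ⟨n, hn⟩ := exists_nat_ge (4 / θ₁ + 1)
  have hn1 : 1 ≤ n := by
    have h1 : (0 : ℝ) < 4 / θ₁ := by positivity
    have h2 : (0 : ℝ) < n := by linarith
    exact_mod_cast h2
  obtain ⟨C₁, hC₁, hcls⟩ := nd_cls m D₂ D n hD hn1
  obtain ⟨Cr, hCr, hro⟩ := winb_rout m D 2 hD
  obtain ⟨Cg, hCg, hgr⟩ := grb m D
  obtain ⟨C, hC⟩ : ∃ C : ℝ, C = C₁ + Cr + Cg := ⟨_, rfl⟩
  have hCr1 : (1 : ℝ) ≤ Cr := by exact_mod_cast hCr
  have hCg1 : (1 : ℝ) ≤ Cg := by exact_mod_cast hCg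
  have hC1 : 1 ≤ C := by linarith
  have hC₁C : C₁ ≤ C := by linarith
  have hCrC : (Cr : ℝ) ≤ C := by linarith
  have hCgC : (Cg : ℝ) ≤ C := by linarith
  -- the constants
  obtain ⟨κ₂, hκ₂⟩ : ∃ κ₂ : ℝ, κ₂ = min (min (1 / 2) (ξ / 2)) ((s - 1) / 4) := ⟨_, rfl⟩
  have hκ₂0 : 0 < κ₂ := by
    rw [hκ₂]
    exact lt_min (lt_min (by norm_num) (by linarith)) (by linarith)
  have hκa : κ₂ ≤ 1 / 2 := by rw [hκ₂]; exact (min_le_left _ _).trans (min_le_left _ _)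
  have hκb : κ₂ ≤ ξ / 2 := by rw [hκ₂]; exact (min_le_left _ _).trans (min_le_right _ _)
  have hκc : κ₂ ≤ (s - 1) / 4 := by rw [hκ₂]; exact min_le_right _ _
  obtain ⟨β, hβe⟩ : ∃ β : ℝ, β = min (κ₂ / 32) (θ₁ / 4) := ⟨_, rfl⟩
  have hβ : 0 < β := by rw [hβe]; exact lt_min (by positivity) (by positivity)
  have hβκ : 32 * β ≤ κ₂ := by
    rw [hβe]
    have := min_le_left (κ₂ / 32) (θ₁ / 4)
    linarith
  have hβθ : 4 * β ≤ θ₁ := by
    rw [hβe]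
    have := min_le_right (κ₂ / 32) (θ₁ / 4)
    linarith
  obtain ⟨ζ, hζe⟩ : ∃ ζ : ℝ, ζ = β / (C * (s + 1)) := ⟨_, rfl⟩
  have hC0 : 0 < C := by linarith
  have hζ0 : 0 < ζ := by rw [hζe]; positivity
  have hζ : C * ζ * (s + 1) = β := by
    rw [hζe]
    field_simp
  have hζβ : 2 * ζ ≤ β := by
    have h1 : ζ ≤ C * ζ := le_mul_of_one_le_left hζ0.le hC1
    have h2 : C * ζ * 2 ≤ C * ζ * (s + 1) :=
      mul_le_mul_of_nonneg_left (by linarith) (by positivity)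
    linarith
  obtain ⟨ε₁, hε₁⟩ : ∃ ε₁ : ℝ, ε₁ = min (β / 32) (ζ / (16 * C)) := ⟨_, rfl⟩
  have hε₁0 : 0 < ε₁ := by rw [hε₁]; exact lt_min (by positivity) (by positivity)
  obtain ⟨M₀, hM₀⟩ := exists_nat_ge (16 * C * (s + 1) / ζ)
  have hM0 : (0 : ℝ) < M₀ := lt_of_lt_of_le (by positivity) hM₀
  have hM1 : 1 ≤ M₀ := by
    have : 0 < M₀ := by exact_mod_cast hM0
    omega
  have hMs : (s + 1) / M₀ ≤ ζ / (16 * C) := by
    rw [div_le_iff₀ hζ0] at hM₀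
    rw [div_le_div_iff₀ hM0 (by positivity)]
    linarith
  refine ⟨ζ, ε₁, M₀, hζ0, by linarith, by linarith, hε₁0, hM1, ?_⟩
  intro S al g₀ P θ P₂ θ₂ Eb e₂ c Pt r h Kn g L T Sl κ G N₀ A V S₂ N' V' K ε q t R y S1 S2 hκ hε
    hεε hyK hAV hV'
  have hεβ : 32 * ε ≤ β := by
    have := hεε.trans ((le_of_eq hε₁).trans (min_le_left _ _))
    linarith
  have hεζ : ε ≤ ζ / (16 * C) := hεε.trans ((le_of_eq hε₁).trans (min_le_right _ _))
  have hq := R.q0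
  have ht0 := R.t0
  have ht1 := R.t1
  have h0m : 0 < m := by omega
  have h1m : 1 < m := by omega
  have h2m : 2 < m := by omega
  have W := R.tg 2 (by norm_num) h2m
  have hEb := W.Eb0
  have hEbe := W.Ebe
  have hy := abs_le.1 (le_refl |y|)
  have hK4 : 4 ≤ K := by linarith [abs_nonneg y]
  have hKq : 4 * q ≤ K * q := mul_le_mul_of_nonneg_right hK4 hq.le
  have hyq1 : y * q ≤ (K - 4) * q := mul_le_mul_of_nonneg_right (by linarith) hq.le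
  have hyq2 : -(K - 4) * q ≤ y * q := mul_le_mul_of_nonneg_right (by linarith) hq.le
  obtain ⟨x, hx⟩ : ∃ x : ℝ, x = t + y * q := ⟨_, rfl⟩
  rw [← hx]
  have hxa : t - K * q + 4 * q ≤ x := by rw [hx]; linarith
  have hxb : x ≤ t + K * q - 4 * q := by rw [hx]; linarith
  have hbox : ∀ u : ℝ, 0 ≤ u → u ≤ 4 * q → |x + u - t| ≤ K * q := fun u h1 h2 => by
    rw [abs_le]
    constructor <;> linarith
  -- the windows of the chain
  obtain ⟨ow, how⟩ : ∃ ow : ℕ → ℝ, ow = fun k => x + chV M₀ 0 k * q := ⟨_, rfl⟩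
  have hok : ∀ k, ow k = x + chV M₀ 0 k * q := fun k => by rw [how]
  have hch : ∀ k : ℕ, chV M₀ 0 k = k / M₀ := fun k => by
    unfold chV
    push_cast
    ring
  have how0 : ow 0 = x := by
    rw [hok, hch]
    simp
  have hown : ow M₀ = x + q := by
    rw [hok, hch, div_self hM0.ne', one_mul]
  have hk01 : ∀ k ≤ M₀, 0 ≤ chV M₀ 0 k ∧ chV M₀ 0 k ≤ 1 := fun k hk => by
    rw [hch]
    refine ⟨by positivity, ?_⟩
    rw [div_le_one hM0]
    exact_mod_cast hk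
  have hokq : ∀ k ≤ M₀, 0 ≤ chV M₀ 0 k * q ∧ chV M₀ 0 k * q ≤ q := fun k hk => by
    obtain ⟨h1, h2⟩ := hk01 k hk
    refine ⟨by positivity, ?_⟩
    have := mul_le_mul_of_nonneg_right h2 hq.le
    linarith
  have hlvk : ∀ k l : ℕ, l ≤ 2 → lvN P c 2 (L 2) l (ow k) (ow k) = L l (ow k) (ow k) :=
    fun k l hl => by rw [← R.lv_at h2m hl]
  have hSl : ∀ l ≤ 2, 1 ≤ Sl l ∧ Sl l ≤ s := by
    intro l hl
    have h3 : l = 0 ∨ l = 1 ∨ l = 2 := by omega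
    rcases h3 with rfl | rfl | rfl
    · rw [R.s0]
      exact ⟨le_rfl, hs.le⟩
    · rw [S1]
      exact ⟨le_rfl, hs.le⟩
    · rw [S2]
      exact ⟨hs.le, le_rfl⟩
  have hSl1 : ∀ l < 2, Sl l = 1 := by
    intro l hl
    have h3 : l = 0 ∨ l = 1 := by omega
    rcases h3 with rfl | rfl
    · exact R.s0
    · exact S1
  have hdL : ∀ l ≤ 2, ∀ u u' : ℝ, 0 ≤ u → u ≤ 4 * q → 0 ≤ u' → u' ≤ 4 * q →
      |L l (x + u) (x + u) - L l (x + u') (x + u') - Sl l * (u - u')| ≤ 2 * (ε * q) := by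
    intro l hl u u' h1 h2 h3 h4
    have h5 := abs_le.1 (R.dL l (by omega) (x + u) (hbox u h1 h2))
    have h6 := abs_le.1 (R.dL l (by omega) (x + u') (hbox u' h3 h4))
    have e1 : Sl l * (x + u - t) = Sl l * (x - t) + Sl l * u := by ring
    have e2 : Sl l * (x + u' - t) = Sl l * (x - t) + Sl l * u' := by ring
    have e3 : Sl l * (u - u') = Sl l * u - Sl l * u' := by ring
    rw [e1] at h5
    rw [e2] at h6
    rw [e3, abs_le]
    constructor <;> linarith [h5.1, h5.2, h6.1, h6.2]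
  have hroom : ∀ l ≤ 2, ∀ u : ℝ, 0 ≤ u → u ≤ 4 * q → L l (x + u) (x + u) + Eb 2 + 12 * q < 1 := by
    intro l hl u h1 h2
    have := W.room l hl (x + u) (hbox u h1 h2)
    have h3 : 12 * q ≤ 3 * K * q := by linarith
    linarith
  have hεq : 0 ≤ ε * q := by positivity
  have hlow : ∀ l ≤ 2, ∀ u : ℝ, 0 ≤ u → u ≤ 4 * q → q ≤ L l (x + u) (x + u) := by
    intro l hl u h1 h2
    have h3 : 0 ≤ x + u := by linarith
    have h4 : x + u ≤ 1 := by linarith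
    have h5 : x + u ≤ L l (x + u) (x + u) := by
      rcases Nat.lt_or_ge (l + 1) m with h6 | h6
      · rw [R.lv_lt h6]
        exact R.thr.low _ _ _ h3 le_rfl h4
      · have h7 : l = m - 1 := by omega
        rw [h7, R.lv_last h0m]
        exact R.tgs.low () _ _ h3 le_rfl h4
    linarith
  -- the rational windows
  obtain ⟨kp, hkp, hAk, hVk⟩ := hAV
  obtain ⟨d, hd, hrat⟩ := W.rat kp hkp (β / 8 * q) (by positivity)
  have eA : t + A kp * q = x + q := by rw [hAk, hx]; ring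
  have eV : t + V kp * q = x + ζ / 2 * q := by rw [hVk, hx]; ring
  rw [eA, eV] at hrat
  obtain ⟨a, ha1, ha2⟩ : ∃ a : ℚ, x + q < a ∧ (a : ℝ) < x + q + min d (β * q) :=
    exists_rat_btwn (by
      have : 0 < min d (β * q) := lt_min hd (by positivity)
      linarith)
  obtain ⟨w, hw1, hw2⟩ : ∃ w : ℚ, x + ζ / 2 * q < w ∧
      (w : ℝ) < x + ζ / 2 * q + min d (ζ * q / 4) := exists_rat_btwn (by
      have : 0 < min d (ζ * q / 4) := lt_min hd (by positivity)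
      linarith)
  have ha3 := min_le_left d (β * q)
  have ha4 := min_le_right d (β * q)
  have hw3 := min_le_left d (ζ * q / 4)
  have hw4 := min_le_right d (ζ * q / 4)
  have hβ1 : β ≤ 1 / 64 := by linarith
  have hβq : β * q ≤ 1 / 64 * q := mul_le_mul_of_nonneg_right hβ1 hq.le
  have hβq0 : 0 < β * q := by positivity
  have hζq : ζ * q ≤ β * q / 2 := by
    have := mul_le_mul_of_nonneg_right hζβ hq.le
    linarith
  have hζq0 : 0 < ζ * q := by positivity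
  have hζ2 : ζ / 2 * q = ζ * q / 2 := by ring
  have hwa : (w : ℝ) ≤ a := by linarith
  obtain ⟨hbr, -, -⟩ := hrat a w ha1.le (by linarith) hw1.le (by linarith) hwa
  have hkd := R.kd 2 h2m
  rw [hκ] at hkd
  obtain ⟨-, hthin⟩ := hkd
  have hth := hthin (x + q) (x + ζ / 2 * q) (by linarith) (by linarith) (by linarith)
  have hdT := abs_le.1 (R.dT 2 h2m (x + ζ / 2 * q) (hbox _ (by positivity) (by linarith)))
  have hdx := abs_le.1 (R.dL 2 h2m x (by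
    have := hbox 0 le_rfl (by linarith)
    rwa [add_zero] at this))
  have hdL1 := abs_le.1 (hdL 2 le_rfl q 0 hq.le (by linarith) le_rfl (by linarith))
  rw [add_zero, sub_zero, S2] at hdL1
  rw [S2] at hdT hdx
  have hrt : ∀ l ≤ 2, L l x x + Eb 2 + 12 * q < 1 := fun l hl => by
    have := hroom l hl 0 le_rfl (by linarith)
    rwa [add_zero] at this
  have hsm : s * (x + ζ / 2 * q - t) - s * (x - t) = s * (ζ / 2 * q) := by ring
  obtain ⟨n1, n2, n3, n4, n5, n6, n7, n8, n9, n10, n11, n12⟩ :=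
    v0_nmR (C := C) (q := q) (t := x) (β := β) (ζ := ζ) (s := s) (κ₂ := κ₂)
    (ε := 2 * ε) (L0 := L 2 x x) (LN := L 2 (x + q) (x + q)) (bt := bet (P₂ 2) c 2 a w)
    (Eb := Eb 2) (e := e₂ 2) (a := a) (w := w) hq hC1 hβ hβκ (by linarith) (by linarith) hζ0 hζ
    (by linarith) (by linarith) (by
      have h1 : (s - 1) * (ζ / 2 * q) = s * (ζ / 2 * q) - ζ / 2 * q := by ring
      rw [h1]
      linarith [hdT.2, hdx.1]) (by linarith [hdL1.1]) ha1.le (by linarith) hw1.le (by linarith)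
    (by
      have := hrt 2 le_rfl
      linarith) hEb (by linarith)
  have hCζ : C * (ζ * q) ≤ q := by
    have h1 : C * ζ ≤ 1 := by
      have h2 : C * ζ * 1 ≤ C * ζ * (s + 1) :=
        mul_le_mul_of_nonneg_left (by linarith) (by positivity)
      linarith
    have h2 := mul_le_mul_of_nonneg_right h1 hq.le
    linarith
  have hC₁ζ : C₁ * (ζ * q) ≤ C * (ζ * q) := mul_le_mul_of_nonneg_right hC₁C hζq0.le
  -- the sizes of the windows
  obtain ⟨ηm, hηm⟩ : ∃ ηm : ℝ, ηm = ζ / (4 * C * CB) * q := ⟨_, rfl⟩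
  have hCB0 : 0 < CB := by linarith
  have hηm0 : 0 < ηm := by rw [hηm]; positivity
  have hηm1 : 4 * C * (CB * ηm) = ζ * q := by
    rw [hηm]
    field_simp
  have hηm2 : CB * ηm ≤ ζ * q := by
    have h1 : CB * ηm ≤ 4 * C * (CB * ηm) :=
      le_mul_of_one_le_left (by positivity) (by linarith)
    linarith
  have hr₀ : 0 < min (q / (2 * M₀)) (ζ / 2 * q / 2) := lt_min (by positivity) (by positivity)
  obtain ⟨K₁, bb, hK₁, hwin⟩ := hwin (S := S) (P := P) (θ := θ) (c := c) (Pt := L 2)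
    (a := x + 3 * q) (Eb := Eb 2) (ηm := ηm) (o := ow) (η := fun _ => ηm) (σ := fun _ => ηm)
    (r₀ := fun _ => min (q / (2 * M₀)) (ζ / 2 * q / 2)) M₀ 2 R.thr R.th0 R.tmh
    (R.inj.mono fun z hz => by
      rw [Set.mem_Iio] at hz ⊢
      omega) (R.lawL 2 h2m) hEb.le (fun k hk => by
      obtain ⟨j, hj, hVj⟩ := hV' k hk
      have h1 := hk01 k hk
      rw [hch] at h1
      have h2 := rec_balI R (i := 2) (k := j) (x := y + 3) (by norm_num) h2m hj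
        (by rw [hVj]; linarith) (by rw [hVj]; linarith) (by
          rw [hVj, abs_le]
          constructor <;> linarith [hy.1, hy.2])
      have e1 : t + (y + 3) * q = x + 3 * q := by rw [hx]; ring
      have e2 : t + V' j * q = ow k := by rw [hVj, hok, hch, hx]; ring
      rw [e1, e2] at h2
      exact h2)
    (fun k' _ => ⟨hηm0, hηm0, le_rfl, hr₀, le_rfl⟩)
  refine ⟨K₁ * 32 ^ 2, by positivity, ?_⟩
  intro v₀ hv0 hvx c₁ Mq hc₁ hMq
  -- the numbers of the class theorem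
  have hθq : 4 * (β * q) ≤ θ₁ * q := by
    have := mul_le_mul_of_nonneg_right hβθ hq.le
    linarith
  have hx1 : x < 1 := by linarith
  have hκq : κ₂ * q ≤ 1 / 2 * q := mul_le_mul_of_nonneg_right hκa hq.le
  have hκq0 : 0 < κ₂ * q := by positivity
  have hκs : κ₂ * q ≤ (s - 1) / 4 * q := mul_le_mul_of_nonneg_right hκc hq.le
  have hκξ : κ₂ * q ≤ ξ / 2 * q := mul_le_mul_of_nonneg_right hκb hq.le
  have hβκq : 32 * (β * q) ≤ κ₂ * q := by
    have := mul_le_mul_of_nonneg_right hβκ hq.le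
    linarith
  have hεβq : 32 * (ε * q) ≤ β * q := by
    have := mul_le_mul_of_nonneg_right hεβ hq.le
    linarith
  have hnn : κ₂ * q + ζ / 2 * q ≤ n * (ow 0 - v₀ - ζ * q) := by
    rw [how0]
    have h1 : θ₁ / 2 * q ≤ x - v₀ - ζ * q := by
      rw [hx]
      have h2 : ζ * q ≤ θ₁ / 2 * q := by linarith
      linarith
    have h2 : (n : ℝ) * (θ₁ / 2 * q) ≤ n * (x - v₀ - ζ * q) :=
      mul_le_mul_of_nonneg_left h1 (Nat.cast_nonneg _)
    have h3 : 4 / θ₁ * (θ₁ / 2 * q) ≤ n * (θ₁ / 2 * q) :=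
      mul_le_mul_of_nonneg_right (by linarith) (by positivity)
    have h4 : 4 / θ₁ * (θ₁ / 2 * q) = 2 * q := by field_simp; norm_num
    linarith
  have hdeep : κ₂ * q + 8 * (ζ * q) ≤ lvN P c 2 (L 2) 2 (ow M₀) (ow M₀) - ow M₀ -
      (lvN P c 2 (L 2) 2 (ow 0) (ow 0) - ow 0) := by
    rw [hlvk _ _ le_rfl, hlvk _ _ le_rfl, how0, hown]
    have h1 : (s - 1) * q = s * q - q := by ring
    have h2 : (s - 1) / 4 * q = (s - 1) * q / 4 := by ring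
    rw [h2, h1] at hκs
    linarith [hdL1.1]
  obtain ⟨e₀, he₀, hcls⟩ := hcls (S := S) (P := P₂ 2) (θ := θ₂ 2) (c := c) (C₀ := CB)
    (a' := x + 3 * q) (Eb := Eb 2) (ηm := ηm) (ζ := ζ * q) (o := ow) (η := fun _ => ηm)
    (σ := fun _ => ηm) (lv := fun k l => lvN P c 2 (L 2) l (ow k) (ow k)) (r := 2) (Dr := D)
    (N := M₀) (M := 2) (k₀ := 0) (nd := M₀) (a := a) (w := w) (q₁ := ζ / 2 * q) (s₁ := κ₂ * q)
    (h := β * q) (h₂ := 2 * (β * q)) (e := e₂ 2) (ι := ζ / 2 * q) (v₀ := v₀) R.pos W.thr₂ R.tmh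
    (R.inj.mono fun z hz => by
      rw [Set.mem_Iio] at hz ⊢
      omega) le_rfl (Nat.zero_le _) le_rfl (by rw [how0]; linarith) (by rw [how0]; exact n1)
    (by
      have h1 : (0 : ℝ) ≤ w := by linarith
      exact_mod_cast h1) (by exact_mod_cast hwa) (by
      have h1 : (a : ℝ) ≤ 1 := by linarith
      exact_mod_cast h1) (by
      have h1 : (w : ℝ) < 1 := by linarith
      exact_mod_cast h1) (W.eθ w (by
      rw [abs_le]
      constructor <;> linarith)) hβq0 (by positivity) hζq0 hηm2 (by positivity) n4 (by linarith)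
    (by
      show bet (P₂ 2) c 2 a w + β * q + C₁ * (ζ * q) + 2 * (2 * (β * q)) ≤
        lvN P c 2 (L 2) 2 (ow 0) (ow 0) + κ₂ * q + (a - w)
      rw [hlvk _ _ le_rfl, how0]
      linarith) (by
      show bet (P₂ 2) c 2 a w + β * q + C₁ * (ζ * q) + 2 * (2 * (β * q)) ≤
        lvN P c 2 (L 2) 2 (ow M₀) (ow M₀) - (ow M₀ - w) + (a - w)
      rw [hlvk _ _ le_rfl, hown]
      linarith) (by
      show bet (P₂ 2) c 2 a w + β * q + C₁ * (ζ * q) + 2 * (2 * (β * q)) + ζ / 2 * q ≤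
        lvN P c 2 (L 2) 2 (ow 0) (ow 0) + 2 * (a - w)
      rw [hlvk _ _ le_rfl, how0]
      linarith) (by linarith) (fun l hl => by
      show Eb 2 + lvN P c 2 (L 2) l (ow 0) (ow 0) + 2 * (a - w) + C₁ * (ζ * q) ≤ 1
      rw [hlvk _ _ hl, how0]
      have h1 := n10 (L l x x) (by
        have := hrt l hl
        linarith)
      linarith) (fun l hl => by
      show Eb 2 + lvN P c 2 (L 2) l (ow 0) (ow 0) + max (κ₂ * q) 0 + 2 * (ζ / 2 * q) +
        C₁ * (ζ * q) ≤ 1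
      rw [hlvk _ _ hl, how0]
      have h1 := n11 (L l x x) (by
        have := hrt l hl
        linarith)
      linarith) (fun j _ => Or.inr (by
      show bet (P₂ 2) c 2 a w + β * q ≤ lvN P c 2 (L 2) 2 (ow 0) (ow 0) + (a - w) + ζ * q +
        2 * (β * q)
      rw [hlvk _ _ le_rfl, how0]
      exact n12)) (by positivity) (by linarith) hv0 (by linarith) (by
      rw [how0]
      linarith) hκq0.le hnn hdeep c₁ Mq hc₁ hMq
  -- the outputs of the balls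
  obtain ⟨ζr, hζr⟩ : ∃ ζr : ℝ, ζr = ζ * q / Cr := ⟨_, rfl⟩
  have hζr0 : 0 < ζr := by rw [hζr]; positivity
  have hζrC : Cr * ζr = ζ * q := by rw [hζr]; field_simp
  obtain ⟨κ', hκ', hro⟩ := hro (S := S) (c := c) (C₀ := CB) (a := x + 3 * q) (Eb := Eb 2)
    (ηm := ηm) (ζ := ζr) (κ₀ := 1 / K₁) (o := ow) (η := fun _ => ηm) (σ := fun _ => ηm)
    (lv := fun k l => lvN P c 2 (L 2) l (ow k) (ow k)) (Dr := D) (N := M₀) (M := 2) [0, M₀]
    R.tmh (R.inj.mono fun z hz => by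
      rw [Set.mem_Iio] at hz ⊢
      omega) le_rfl hζr0 (by positivity) (by
      rw [hζr, le_div_iff₀ (by positivity)]
      have h1 : CB * ηm * Cr ≤ 4 * C * (CB * ηm) := by
        have h2 : CB * ηm * Cr ≤ CB * ηm * (4 * C) :=
          mul_le_mul_of_nonneg_left (by linarith) (by positivity)
        linarith
      linarith) (fun k hk => by
      have hk' : k = 0 ∨ k = M₀ := by
        simpa using hk
      rw [hζrC]
      rcases hk' with rfl | rfl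
      · refine ⟨Nat.zero_le _, by rw [how0]; linarith, fun l hl => ?_⟩
        show ζ * q ≤ lvN P c 2 (L 2) l (ow 0) (ow 0) ∧
          Eb 2 + lvN P c 2 (L 2) l (ow 0) (ow 0) + ζ * q ≤ 1
        rw [hlvk _ _ hl, how0]
        have h1 := hlow l hl 0 le_rfl (by linarith)
        rw [add_zero] at h1
        have h2 := hrt l hl
        constructor <;> linarith
      · refine ⟨le_rfl, by rw [hown]; linarith, fun l hl => ?_⟩
        show ζ * q ≤ lvN P c 2 (L 2) l (ow k) (ow k) ∧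
          Eb 2 + lvN P c 2 (L 2) l (ow k) (ow k) + ζ * q ≤ 1
        rw [hlvk _ _ hl, hown]
        have h1 := hlow l hl q hq.le (by linarith)
        have h2 := hroom l hl q hq.le (by linarith)
        constructor <;> linarith)
  -- the radii
  obtain ⟨J₁, hJ₁⟩ := radii_ok (M₀ := M₀) (cb := 0) (t := x) (q := q) (a := a)
    (q₁ := ζ / 2 * q) (φ := 0) (ζ := ζ * q) hM1 hq (by
      push_cast
      linarith) ha1.le n3 (by positivity) (by linarith) (by linarith) hζq0.le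
  simp only [← hok, zero_mul, zero_add] at hJ₁
  obtain ⟨J₂, hJ₂⟩ := exists_nat_ge (max 8 (M₀ : ℝ) / (ζ / (4 * Cg) * q))
  refine ⟨e₀, he₀, Bas.mono (max (max J₁ J₂) 1) ((hwin κ' hκ').and (hro.and hcls)) ?_⟩
  rintro J hJ F A₀ ⟨b1, b2, b3⟩
  have hJ1 : J₁ ≤ J := (le_max_left _ _).trans ((le_max_left _ _).trans hJ)
  have hJ2 : J₂ ≤ J := (le_max_right _ _).trans ((le_max_left _ _).trans hJ)
  have hJ0 : (0 : ℝ) ≤ J := Nat.cast_nonneg J
  have hJ2R : (J₂ : ℝ) ≤ J := by exact_mod_cast hJ2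
  have hp := Pe_nonneg F.isLaw
  obtain ⟨z1, z2, z3, z4, z5, z6, z7⟩ := hJ₁ J hJ1
  obtain ⟨zz, hzz⟩ : ∃ zz : ℕ → ℕ → ℕ, zz = zzV M₀ 0 x q a (ζ / 2 * q) J := ⟨_, rfl⟩
  rw [← hzz] at z1 z2 z3 z4 z5 z6 z7
  -- the numbers
  obtain ⟨u, hu⟩ : ∃ u : ℝ, u = ζ / (4 * Cg) * (q * J) := ⟨_, rfl⟩
  have hmx : max 8 (M₀ : ℝ) ≤ u := by
    have h1 := hJ₂.trans hJ2R
    rw [div_le_iff₀ (by positivity)] at h1
    rw [hu]
    linarith
  have hu8 : 8 ≤ u := (le_max_left _ _).trans hmx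
  have huM : (M₀ : ℝ) ≤ u := (le_max_right _ _).trans hmx
  obtain ⟨qJ, hqJ⟩ : ∃ qJ : ℝ, qJ = q * J := ⟨_, rfl⟩
  have hqJ0 : 0 ≤ qJ := by rw [hqJ]; positivity
  have hCg0 : (0 : ℝ) < Cg := by linarith
  have hζu : Cg * (2 * u) = ζ / 2 * qJ := by
    rw [hu, ← hqJ]
    field_simp
    norm_num
  have hζC : ζ / (16 * C) ≤ ζ / (16 * Cg) :=
    div_le_div_of_nonneg_left hζ0.le (by positivity) (by linarith)
  have hu4 : ζ / (16 * Cg) * qJ = u / 4 := by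
    rw [hu, ← hqJ]
    field_simp
    ring
  obtain ⟨Y, hY⟩ : ∃ Y : ℕ, Y = ⌊2 * u⌋₊ := ⟨_, rfl⟩
  have hY1 : (Y : ℝ) ≤ 2 * u := by rw [hY]; exact Nat.floor_le (by linarith)
  have hY2 : u + 7 ≤ Y := by
    have h1 := (Nat.lt_floor_add_one (2 * u)).le
    rw [← hY] at h1
    linarith
  have hCgY : (Cg : ℝ) * Y ≤ ζ / 2 * qJ := by
    rw [← hζu]
    exact mul_le_mul_of_nonneg_left hY1 hCg0.le
  obtain ⟨X, hX⟩ : ∃ X : ℕ, X = ⌊2 * κ₂ * qJ⌋₊ := ⟨_, rfl⟩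
  have hX1 : (X : ℝ) ≤ 2 * κ₂ * qJ := by rw [hX]; exact Nat.floor_le (by positivity)
  have hX2 : 2 * κ₂ * qJ - 1 ≤ X := by
    have h1 := (Nat.lt_floor_add_one (2 * κ₂ * qJ)).le
    rw [← hX] at h1
    linarith
  obtain ⟨q', hq'⟩ : ∃ q' : ℕ, q' = ⌊qJ⌋₊ + 4 := ⟨_, rfl⟩
  have hq1 : (q' : ℝ) ≤ qJ + 4 := by
    rw [hq']
    push_cast
    linarith [Nat.floor_le hqJ0]
  have hq2 : qJ + 3 ≤ q' := by
    have h1 := (Nat.lt_floor_add_one qJ).le
    rw [hq']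
    push_cast
    linarith
  have hζκ : 64 * (ζ * qJ) ≤ κ₂ * qJ := by
    have h1 : 64 * ζ ≤ κ₂ := by linarith
    have := mul_le_mul_of_nonneg_right h1 hqJ0
    linarith
  have huζ : 2 * u ≤ ζ / 2 * qJ := by
    rw [← hζu]
    exact le_mul_of_one_le_left (by linarith) hCg1
  have hκJ : κ₂ * qJ ≤ 1 / 2 * qJ := mul_le_mul_of_nonneg_right hκa hqJ0
  have hκsJ : κ₂ * qJ ≤ (s - 1) / 4 * qJ := mul_le_mul_of_nonneg_right hκc hqJ0
  have hstep : ∀ k, (ow (k + 1) - ow k) * (J : ℝ) = 1 / M₀ * qJ := fun k => by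
    rw [hok, hok, chV_succ, hqJ]
    ring
  have hMsq : (s + 1) / M₀ * qJ ≤ u / 4 := by
    rw [← hu4]
    exact mul_le_mul_of_nonneg_right (hMs.trans hζC) hqJ0
  have hMsq' : s * (1 / M₀ * qJ) + 1 / M₀ * qJ = (s + 1) / M₀ * qJ := by ring
  have hM1q : 0 ≤ 1 / (M₀ : ℝ) * qJ := by positivity
  have hεJ : 2 * (ε * q) * J ≤ u / 2 := by
    have h1 : ε * qJ ≤ ζ / (16 * Cg) * qJ :=
      mul_le_mul_of_nonneg_right (hεζ.trans hζC) hqJ0
    rw [hu4] at h1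
    have h2 : 2 * (ε * q) * (J : ℝ) = 2 * (ε * qJ) := by rw [hqJ]; ring
    rw [h2]
    linarith
  have hdJ : ∀ l ≤ 2, ∀ k ≤ M₀, ∀ k' ≤ M₀, |(lvN P c 2 (L 2) l (ow k') (ow k') -
      lvN P c 2 (L 2) l (ow k) (ow k)) * J - Sl l * ((ow k' - ow k) * J)| ≤ u / 2 := by
    intro l hl k hk k' hk'
    rw [hlvk _ _ hl, hlvk _ _ hl]
    have h1 := hokq k hk
    have h2 := hokq k' hk'
    have h3 := hdL l hl (chV M₀ 0 k' * q) (chV M₀ 0 k * q) h2.1 (by linarith) h1.1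
      (by linarith)
    rw [← hok, ← hok] at h3
    have h4 : (L l (ow k') (ow k') - L l (ow k) (ow k)) * (J : ℝ) - Sl l * ((ow k' - ow k) * J) =
        (L l (ow k') (ow k') - L l (ow k) (ow k) -
          Sl l * (chV M₀ 0 k' * q - chV M₀ 0 k * q)) * J := by
      have h5 : ow k' - ow k = chV M₀ 0 k' * q - chV M₀ 0 k * q := by
        rw [hok, hok]
        ring
      rw [h5]
      ring
    rw [h4, abs_mul, abs_of_nonneg hJ0]
    exact (mul_le_mul_of_nonneg_right h3 hJ0).trans hεJ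
  have htot : (ow M₀ - ow 0) * (J : ℝ) = qJ := by
    rw [how0, hown, hqJ]
    ring
  have hmono : ∀ k, ow k ≤ ow (k + 1) := fun k => by
    rw [hok, hok]
    have := mul_le_mul_of_nonneg_right (chV_mono (M₀ := M₀) (cb := 0) (Nat.le_succ k)) hq.le
    linarith
  -- the events
  obtain ⟨B₀, g₁, G₁, H₁, hB₀, hPB₀, WB⟩ := b1 zz z1
  have hPB₀' : 1 / K₁ * Pe F.p A₀ ≤ Pe F.p B₀ := by
    rw [one_div, inv_mul_le_iff₀ hK₁]
    exact hPB₀
  obtain ⟨B', hB', hPB', hout⟩ := b2 zz κ' bb B₀ g₁ G₁ H₁ B₀ WB le_rfl hB₀ (fun _ h => h) hPB₀'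
  rw [hζrC] at hout
  obtain ⟨hsz, hvis⟩ := hgr WB (n := M₀) (q := q') (X := X) (Y := Y) (s := s)
    (R.inj.mono fun z hz => by
      rw [Set.mem_Iio] at hz ⊢
      omega) le_rfl le_rfl (fun k _ => ⟨z2 k, hmono k⟩) (z7 0) (by
      have h1 : CB * (ηm * J) = ζ / (4 * C) * qJ := by
        rw [hηm, hqJ]
        field_simp
      rw [h1]
      have h2 : ζ / (4 * C) ≤ ζ / (4 * Cg) :=
        div_le_div_of_nonneg_left hζ0.le (by positivity) (by linarith)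
      have h3 := mul_le_mul_of_nonneg_right h2 hqJ0
      rw [hqJ, ← hu] at h3
      rw [hqJ]
      linarith) (by
      have : (3 : ℝ) ≤ Y := by linarith
      exact_mod_cast this) (by
      have h1 : (M₀ : ℝ) ≤ Y := by linarith
      exact h1.trans (by exact_mod_cast Nat.lt_two_pow_self.le)) hs.le
    (fun k hk l hl => by
      have h1 := abs_le.1 (hdJ l hl k (by omega) (k + 1) (by omega))
      rw [hstep] at h1
      obtain ⟨h2, h3⟩ := hSl l hl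
      have h4 : Sl l * (1 / M₀ * qJ) ≤ s * (1 / M₀ * qJ) := mul_le_mul_of_nonneg_right h3 hM1q
      have h5 : 0 ≤ Sl l * (1 / M₀ * qJ) := mul_nonneg (by linarith) hM1q
      rw [abs_le]
      constructor <;> linarith [h1.1, h1.2]) (fun k _ => by
      rw [hstep]
      linarith) (fun k k' hk hk' l hl => by
      have h1 := abs_le.1 (hdJ l hl.le k (by omega) k' hk')
      rw [hSl1 l hl, one_mul] at h1
      linarith [h1.2]) (fun k hk => by
      have h1 := abs_le.1 (hdJ 2 le_rfl 0 (Nat.zero_le _) k hk)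
      rw [S2] at h1
      linarith [h1.1]) (by rw [htot]; exact hq2) (by
      rw [htot]
      have h1 : (s - 1) / 4 * qJ = (s * qJ - qJ) / 4 := by ring
      rw [h1] at hκsJ
      linarith) (by
      have : (X : ℝ) ≤ q' := by linarith
      exact_mod_cast this) (by
      rw [htot]
      have h1 : (s - 1) / 4 * qJ = (s - 1) * qJ / 4 := by ring
      rw [h1] at hκsJ
      have h2 : 0 ≤ (s - 1) * qJ := mul_nonneg (by linarith) hqJ0
      linarith) (fun l hl => by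
      have h1 := mul_le_mul_of_nonneg_right (hrt l hl).le hJ0
      have h2 : (L l x x + Eb 2 + 12 * q) * (J : ℝ) = (Eb 2 + L l x x) * J + 12 * qJ := by
        rw [hqJ]
        ring
      rw [h2, one_mul] at h1
      have h3 := z3 0
      have h4 : ζ / 2 * q * (J : ℝ) = ζ / 2 * qJ := by rw [hqJ]; ring
      rw [h4] at h3
      have h5 : ζ / 2 * qJ ≤ qJ := by
        have : ζ / 2 ≤ 1 := by linarith
        have := mul_le_mul_of_nonneg_right this hqJ0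
        linarith
      show (Eb 2 + lvN P c 2 (L 2) l (ow 0) (ow 0)) * J + zz 0 1 + q' + Cg * Y ≤ J
      rw [hlvk _ _ hl, how0]
      linarith)
  have h2pos : (0 : ℝ) < 2 := by norm_num
  have hfin := b3 zz κ' bb B₀ g₁ G₁ H₁ 1 2 WB hB₀ (by norm_num) le_rfl (z3 0)
    (by rw [how0]; exact z5 0) (by rw [how0]; exact z6 0) B' hB'
    (hout 0 (by simp)) (hout M₀ (by simp)) (fun ω hω j hj => by
      refine (hsz ω (hB' ω hω) j hj).trans ?_
      rw [← Real.rpow_natCast]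
      refine Real.rpow_le_rpow_of_exponent_le (by norm_num) ?_
      push_cast
      have h1 : ζ / 2 * q * (J : ℝ) = ζ / 2 * qJ := by rw [hqJ]; ring
      rw [h1]
      exact hCgY) (fun ω ν hω hν hpt j hj => by
      refine (hvis ω ν (hB' ω hω) (hB' ν hν) hpt j hj).trans ?_
      rw [← Real.rpow_natCast, ← Real.rpow_natCast, ← Real.rpow_sub h2pos]
      refine Real.rpow_le_rpow_of_exponent_le (by norm_num) ?_
      push_cast
      have h1 : κ₂ * q * (J : ℝ) = κ₂ * qJ := by rw [hqJ]; ring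
      rw [h1]
      linarith)
  refine ⟨B', fun ω hω => hB₀ ω (hB' ω hω), ?_, ?_⟩
  · have h1 : Pe F.p B₀ ≤ 32 ^ 2 * Pe F.p B' := by simpa using hPB'
    calc Pe F.p A₀ ≤ K₁ * Pe F.p B₀ := hPB₀
      _ ≤ K₁ * (32 ^ 2 * Pe F.p B') := mul_le_mul_of_nonneg_left h1 hK₁.le
      _ = _ := by ring
  intro Ω₃ 𝒯 _ Q om tp PA hQ hPA hlaw hCH
  refine lt_of_le_of_lt ?_ (hfin Ω₃ 𝒯 Q om tp PA hQ hPA hlaw hCH)
  refine (Pool.JVE.pe_sum Q _).trans_le (le_trans ?_ (Pool.JVE.pe_sum Q _).ge)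
  refine Finset.sum_le_sum fun z _ => ?_
  have h7 := hQ.nonneg z
  by_cases h8 : B' (om z) ∧ RelE F c B' ⌊v₀ * J⌋₊
      (2 ^ ((2 * x - L 0 x x - L 1 x x - ζ * q) * J))
      (2 ^ ((L 2 x x - x + ξ * q) * J)) (PA (tp z)) (om z)
  · rw [if_pos h8, if_pos]
    refine ⟨h8.1, h8.2.mono (fun _ h => h) ?_ ?_⟩
    · rw [hlvk _ _ (by norm_num), hlvk _ _ (by norm_num), how0]
    · rw [hlvk _ _ le_rfl, how0]
      refine Real.rpow_le_rpow_of_exponent_le (by norm_num) ?_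
      refine mul_le_mul_of_nonneg_right ?_ hJ0
      linarith
  · rw [if_neg h8]
    split_ifs <;> linarith

end Pool.ND6
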