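import Pool.Agent.H23.D2.Adh

/-!
# Polynomial approximations of a rational function on short windows

`rap`: the approximation of `A / B` near a point, with the error `(1 - B / b₀) ^ n`. `afp`: the
relative time of a long window as a function of the one of a short window. `rem_low`: a polynomial of
the time is not small at most samples, compared with its maximum.
-/

set_option autoImplicit false

namespace Pool.ND6

open Finset Real
open Pool.Agent.H49.Ent Pool.Agent.H32.Dense Pool.STK Pool.KA Pool.KSAT Pool.K2S Pool.PB Pool.S6C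
open Pool.GEN Pool.CHT Pool.CHX Pool.ISO Pool.D2R
open Pool.FLF (Fam.sub)
open Pool.PB.Trl (rt rt_mem t_rt)

variable {m J : ℕ}

/-- **The approximation of** `A / B`, with the number `b₀` instead of the denominator. -/
noncomputable def rap (n : ℕ) (A B : Polynomial ℝ) (b₀ : ℝ) : Polynomial ℝ :=
  Polynomial.C (1 / b₀) * A * ∑ k ∈ range n, (1 - Polynomial.C (1 / b₀) * B) ^ k

theorem rap_eval (n : ℕ) (A B : Polynomial ℝ) {b₀ τ : ℝ} (h₀ : b₀ ≠ 0) (h : B.eval τ ≠ 0) :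
    A.eval τ / B.eval τ - (rap n A B b₀).eval τ =
      A.eval τ / B.eval τ * (1 - B.eval τ / b₀) ^ n := by
  have e1 : (∑ k ∈ range n, (1 - B.eval τ / b₀) ^ k) * (B.eval τ / b₀) =
      1 - (1 - B.eval τ / b₀) ^ n := by
    have h1 := geom_sum_mul (1 - B.eval τ / b₀) n
    have h2 : (1 - B.eval τ / b₀ - 1) = -(B.eval τ / b₀) := by ring
    rw [h2] at h1
    linarith
  have e2 : (rap n A B b₀).eval τ = A.eval τ / b₀ * ∑ k ∈ range n, (1 - B.eval τ / b₀) ^ k := by
    unfold rap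
    rw [Polynomial.eval_mul, Polynomial.eval_mul, Polynomial.eval_C, Polynomial.eval_finsetSum]
    have e3 : ∀ k ∈ range n, ((1 - Polynomial.C (1 / b₀) * B) ^ k).eval τ =
        (1 - B.eval τ / b₀) ^ k := fun k _ => by
      rw [Polynomial.eval_pow, Polynomial.eval_sub, Polynomial.eval_one, Polynomial.eval_mul,
        Polynomial.eval_C]
      congr 1
      ring
    rw [Finset.sum_congr rfl e3]
    ring
  have e3 : (rap n A B b₀).eval τ = A.eval τ / B.eval τ *
      ((∑ k ∈ range n, (1 - B.eval τ / b₀) ^ k) * (B.eval τ / b₀)) := by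
    rw [e2]
    field_simp
  rw [e3, e1]
  ring

theorem rap_deg {K n : ℕ} (hn : 1 ≤ n) {A B : Polynomial ℝ} (hA : A.natDegree ≤ K)
    (hB : B.natDegree ≤ K) (b₀ : ℝ) : (rap n A B b₀).natDegree ≤ n * K := by
  unfold rap
  have h1 : (∑ k ∈ range n, (1 - Polynomial.C (1 / b₀) * B) ^ k).natDegree ≤ (n - 1) * K := by
    refine Polynomial.natDegree_sum_le_of_forall_le _ _ fun k hk => ?_
    have h2 : (1 - Polynomial.C (1 / b₀) * B).natDegree ≤ K := by
      refine (Polynomial.natDegree_sub_le _ _).trans (max_le ?_ ?_)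
      · rw [Polynomial.natDegree_one]
        exact Nat.zero_le _
      · exact (Polynomial.natDegree_C_mul_le _ _).trans hB
    refine Polynomial.natDegree_pow_le.trans (Nat.mul_le_mul ?_ h2)
    have := Finset.mem_range.1 hk
    omega
  have h3 : (Polynomial.C (1 / b₀) * A).natDegree ≤ K :=
    (Polynomial.natDegree_C_mul_le _ _).trans hA
  refine Polynomial.natDegree_mul_le.trans ((Nat.add_le_add h3 h1).trans (le_of_eq ?_))
  obtain ⟨k, rfl⟩ : ∃ k, n = k + 1 := ⟨n - 1, by omega⟩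
  rw [Nat.add_sub_cancel]
  ring

/-- The relative time of the long window, as a function of the one of the short window. -/
noncomputable def afp {F : Fam m J} (n : ℕ) (s : LnT F) : Polynomial ℝ :=
  Polynomial.C ((s.2.2 : ℝ) / 2 ^ n - ((s.2.2 / 2 ^ n : ℕ) : ℝ)) +
    Polynomial.C (1 / 2 ^ n) * Polynomial.X

theorem afp_deg {F : Fam m J} (n : ℕ) (s : LnT F) : (afp n s).natDegree ≤ 1 := by
  unfold afp
  refine (Polynomial.natDegree_add_le _ _).trans (max_le ?_ ?_)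
  · rw [Polynomial.natDegree_C]
    exact Nat.zero_le _
  · exact (Polynomial.natDegree_C_mul_le _ _).trans Polynomial.natDegree_X_le

theorem afp_eval (F : Fam m J) {w W : ℕ} (hw : w ≤ W) (hW : W ≤ J) (ω : F.Ω) :
    (afp (W - w) (slam F W ω)).eval (rt F W ω) = rt F w ω := by
  have h1 := rt_eq F (hw.trans hW) ω
  have h2 := t_rt F hW ω
  have h3 : (slam F w ω).2.2 = (slam F W ω).2.2 / 2 ^ (W - w) := by
    rw [← co_slam F hw hW ω]
    rfl
  unfold afp
  rw [Polynomial.eval_add, Polynomial.eval_C, Polynomial.eval_mul, Polynomial.eval_C,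
    Polynomial.eval_X, ← h3, ← h1, h2]
  have h4 : (2 : ℝ) ^ W = 2 ^ w * 2 ^ (W - w) := by
    rw [← pow_add]
    congr 1
    omega
  rw [h4]
  field_simp
  ring

theorem afp_zero {F : Fam m J} (n : ℕ) (s : LnT F) :
    (afp n s).eval 0 ∈ Set.Icc (0 : ℝ) 1 := by
  unfold afp
  rw [Polynomial.eval_add, Polynomial.eval_C, Polynomial.eval_mul, Polynomial.eval_C,
    Polynomial.eval_X, mul_zero, add_zero]
  have h1 : ((s.2.2 / 2 ^ n : ℕ) : ℝ) * 2 ^ n ≤ s.2.2 := by
    have := Nat.div_mul_le_self s.2.2 (2 ^ n)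
    exact_mod_cast this
  have h2 : (s.2.2 : ℝ) ≤ (((s.2.2 / 2 ^ n : ℕ) : ℝ) + 1) * 2 ^ n := by
    have := (Nat.lt_div_mul_add (a := s.2.2) (b := 2 ^ n) (by positivity)).le
    have h3 : s.2.2 ≤ (s.2.2 / 2 ^ n + 1) * 2 ^ n := by linarith
    exact_mod_cast h3
  have h3 : (0 : ℝ) < 2 ^ n := by positivity
  constructor
  · rw [sub_nonneg, le_div_iff₀ h3]
    exact h1
  · have h4 : (s.2.2 : ℝ) / 2 ^ n ≤ ((s.2.2 / 2 ^ n : ℕ) : ℝ) + 1 := by
      rw [div_le_iff₀ h3]
      exact h2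
    linarith

theorem afp_dist (F : Fam m J) {w W : ℕ} (hw : w ≤ W) (hW : W ≤ J) (ω : F.Ω) :
    |rt F w ω - (afp (W - w) (slam F W ω)).eval 0| ≤ 1 / 2 ^ (W - w) := by
  have h1 := afp_eval F hw hW ω
  obtain ⟨h2, h3⟩ := rt_mem F W ω
  have h4 : (afp (W - w) (slam F W ω)).eval (rt F W ω) - (afp (W - w) (slam F W ω)).eval 0 =
      1 / 2 ^ (W - w) * rt F W ω := by
    unfold afp
    rw [Polynomial.eval_add, Polynomial.eval_C, Polynomial.eval_mul, Polynomial.eval_C,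
      Polynomial.eval_X, Polynomial.eval_add, Polynomial.eval_C, Polynomial.eval_mul,
      Polynomial.eval_C, Polynomial.eval_X]
    ring
  rw [← h1, h4, abs_of_nonneg (by positivity)]
  calc 1 / 2 ^ (W - w) * rt F W ω ≤ 1 / 2 ^ (W - w) * 1 :=
        mul_le_mul_of_nonneg_left h3 (by positivity)
    _ = _ := mul_one _

/-- The Lipschitz constant on the unit interval. -/
theorem lip_unit (D : ℕ) : ∃ C : ℝ, 1 ≤ C ∧ ∀ (q : Polynomial ℝ) (S : ℝ), q.natDegree ≤ D →
    (∀ t ∈ Set.Icc (0 : ℝ) 1, |q.eval t| ≤ S) → ∀ s ∈ Set.Icc (0 : ℝ) 1,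
    ∀ t ∈ Set.Icc (0 : ℝ) 1, |q.eval s - q.eval t| ≤ C * S * |s - t| := by
  obtain ⟨C, hC, hmk⟩ := Pool.Agent.H40.BFL.unit_markov D
  refine ⟨C, hC, fun q S hq hS s hs t ht => ?_⟩
  have h1 := Convex.norm_image_sub_le_of_norm_hasDerivWithin_le (f := fun x => q.eval x)
    (f' := fun x => (Polynomial.derivative q).eval x) (C := C * S) (s := Set.Icc (0 : ℝ) 1)
    (fun x _ => (q.hasDerivAt x).hasDerivWithinAt) (fun x hx => by
      rw [Real.norm_eq_abs]; exact hmk q S hq hS x hx) (convex_Icc 0 1) ht hs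
  rwa [Real.norm_eq_abs, Real.norm_eq_abs] at h1

/-- **Lower bounds for a polynomial of the time** at half of the samples. -/
theorem rem_low (m K : ℕ) : ∃ C : ℝ, 1 ≤ C ∧ ∀ (J : ℕ) (F : Fam m J)
    (A : F.Ω → Prop) (w : ℕ) (q : LnT F → Polynomial ℝ) (θ : ℝ),
    w ≤ J → (∀ s, (q s).natDegree ≤ K) → 0 ≤ θ → 0 < Pe F.p A →
    (∀ (B : F.Ω → Prop) (hB : 0 < Pe F.p B), Sub B A → Pe F.p A / 2 ≤ Pe F.p B →
      (Fam.sub F B hB).Tm θ) → C * (θ + 1) ≤ ((J : ℝ) - w) * Real.log 2 →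
    (∀ ω, A ω → (q (slam F w ω)).eval (rt F w ω) ≠ 0) →
    ∃ (B : F.Ω → Prop) (S : LnT F → ℝ), Sub B A ∧ Pe F.p A / 2 ≤ Pe F.p B ∧
      (∀ s, ∀ τ ∈ Set.Icc (0 : ℝ) 1, |(q s).eval τ| ≤ S s) ∧ ∀ ω, B ω →
        0 < S (slam F w ω) ∧ S (slam F w ω) ≤ Real.exp (C * (θ + 1)) *
          |(q (slam F w ω)).eval (rt F w ω)| := by
  classical
  obtain ⟨C₁, hC₁, hrem⟩ := Pool.PZ.Zrt.rem_ev (m := m) K
  refine ⟨C₁ + 1, by linarith, ?_⟩
  intro J F A w q θ hw hq hθ hA hTm hJ hne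
  have hmax : ∀ s : LnT F, ∃ τ ∈ Set.Icc (0 : ℝ) 1, ∀ τ' ∈ Set.Icc (0 : ℝ) 1,
      |(q s).eval τ'| ≤ |(q s).eval τ| := by
    intro s
    obtain ⟨τ, hτ, h1⟩ := (isCompact_Icc (a := (0 : ℝ)) (b := 1)).exists_isMaxOn
      ⟨0, by simp⟩ ((q s).continuous.abs.continuousOn)
    exact ⟨τ, hτ, fun τ' hτ' => h1 hτ'⟩
  choose τm hτm hmx using hmax
  obtain ⟨S, hS⟩ : ∃ S : LnT F → ℝ, S = fun s => |(q s).eval (τm s)| := ⟨_, rfl⟩
  obtain ⟨S₀, hS₀⟩ : ∃ S₀ : ℝ, S₀ = Real.exp (-((C₁ + 1) * (θ + 1))) := ⟨_, rfl⟩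
  have hS₀p : 0 < S₀ := by rw [hS₀]; exact Real.exp_pos _
  obtain ⟨Bad, hBad⟩ : ∃ Bad : F.Ω → Prop, Bad = fun ω => A ω ∧
      |(q (slam F w ω)).eval (rt F w ω)| ≤ S₀ * S (slam F w ω) := ⟨_, rfl⟩
  have hsplit : Pe F.p A = Pe F.p Bad + Pe F.p (fun ω => A ω ∧ ¬ Bad ω) := by
    show law F.p A True = law F.p Bad True + law F.p _ True
    unfold law
    rw [← Finset.sum_add_distrib]
    refine Finset.sum_congr rfl fun ω _ => ?_
    rw [hBad]
    by_cases h3 : A ω
    · by_cases h4 : |(q (slam F w ω)).eval (rt F w ω)| ≤ S₀ * S (slam F w ω)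
      · simp [h3, h4]
      · simp [h3, h4]
    · simp [h3]
  have hBadS : Pe F.p Bad < Pe F.p A / 2 := by
    by_contra hcon
    rw [not_lt] at hcon
    have hB0 : 0 < Pe F.p Bad := lt_of_lt_of_le (by linarith) hcon
    have hBA : Sub Bad A := fun ω hω => by
      rw [hBad] at hω
      exact hω.1
    have h1 := hTm Bad hB0 hBA hcon
    have hSp : ∀ ω, A ω → 0 < S (slam F w ω) := fun ω hω => by
      rw [hS]
      have h2 := hmx (slam F w ω) _ (rt_mem F w ω)
      exact lt_of_lt_of_le (abs_pos.2 (hne ω hω)) h2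
    obtain ⟨B, b1, b2, b3⟩ := hrem J F Bad hB0 w (fun s => Polynomial.C (1 / S s) * q s) S₀ θ hw
      (fun s => (Polynomial.natDegree_C_mul_le _ _).trans (hq s)) hS₀p hθ h1 (by
        refine le_trans (mul_le_mul_of_nonneg_right ?_ (by linarith)) hJ
        linarith) (by
        intro ω hω
        have h2 := hSp ω (hBA ω hω)
        rw [Polynomial.eval_mul, Polynomial.eval_C, abs_mul, abs_of_pos (by positivity)]
        rw [hBad] at hω
        have h3 := mul_le_mul_of_nonneg_left hω.2 (show 0 ≤ 1 / S (slam F w ω) by positivity)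
        refine h3.trans (le_of_eq ?_)
        field_simp)
    have hB1 : 0 < Pe F.p B := lt_of_lt_of_le (by linarith) b2
    obtain ⟨ω, hω⟩ : ∃ ω, B ω := by
      by_contra h4
      push Not at h4
      have : Pe F.p B = 0 := by
        show law F.p B True = 0
        unfold law
        refine Finset.sum_eq_zero fun ω _ => ?_
        simp [h4 ω]
      linarith
    have h5 := b3 ω hω (τm (slam F w ω)) (hτm _)
    have h6 := hSp ω (hBA ω (b1 ω hω))
    rw [Polynomial.eval_mul, Polynomial.eval_C, abs_mul, abs_of_pos (by positivity)] at h5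
    have h7 : |(q (slam F w ω)).eval (τm (slam F w ω))| = S (slam F w ω) := by rw [hS]
    rw [h7] at h5
    have h8 : 1 / S (slam F w ω) * S (slam F w ω) = 1 := by field_simp
    rw [h8, hS₀, ← Real.exp_add] at h5
    have h9 : C₁ * (θ + 1) + -((C₁ + 1) * (θ + 1)) = -(θ + 1) := by ring
    rw [h9] at h5
    have h10 : Real.exp (-(θ + 1)) < 1 :=
      (Real.exp_lt_exp.2 (by linarith : -(θ + 1) < 0)).trans_eq Real.exp_zero
    linarith
  refine ⟨fun ω => A ω ∧ ¬ Bad ω, S, fun ω hω => hω.1, by linarith, fun s τ hτ => ?_,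
    fun ω hω => ?_⟩
  · rw [hS]
    exact hmx s τ hτ
  · have h1 := hω.2
    rw [hBad] at h1
    have h2 : S₀ * S (slam F w ω) < |(q (slam F w ω)).eval (rt F w ω)| := by
      by_contra h3
      exact h1 ⟨hω.1, not_lt.1 h3⟩
    have h3 : 0 < S (slam F w ω) := by
      rw [hS]
      exact lt_of_lt_of_le (abs_pos.2 (hne ω hω.1)) (hmx (slam F w ω) _ (rt_mem F w ω))
    refine ⟨h3, ?_⟩
    have h4 : Real.exp ((C₁ + 1) * (θ + 1)) * S₀ = 1 := by
      rw [hS₀, ← Real.exp_add, add_neg_cancel, Real.exp_zero]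
    have h5 := mul_le_mul_of_nonneg_left h2.le (Real.exp_pos ((C₁ + 1) * (θ + 1))).le
    rw [← mul_assoc, h4, one_mul] at h5
    exact h5

/-- Base statements hold on exponentially small parts of the events. -/
theorem bas_exp {S : PCl m} {Φ : Stat m} (h : Bas S Φ) : ∃ τ : ℝ, 0 < τ ∧
    Bas S (fun J F A => ∀ B : F.Ω → Prop, Sub B A →
      Real.exp (-(τ * J)) * Pe F.p A ≤ Pe F.p B → Φ J F B) := by
  obtain ⟨τ, hτ, J₁, h⟩ := h
  refine ⟨τ / 2, by linarith, τ / 2, by linarith, J₁, fun J hJ F A hA B hB hP => ?_⟩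
  have h1 := S.res (by linarith : (0 : ℝ) ≤ τ / 2) hA hB hP
  rw [add_halves] at h1
  exact h J hJ F B h1

end Pool.ND6
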