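import Pool.Agent.H6.ND3.Rel

/-!
# No linear relation between the velocities of three lines: the class theorem

`nd_cls`: over the ball windows `k₀`, `nd`, the target `c 2` thin: for a law comparable with the law
of the family, the probability of `RelE` is small.
-/

set_option autoImplicit false

namespace Pool.ND6

open Finset Real MvPolynomial
open Pool.Agent.H49.Ent Pool.Agent.H32.Dense Pool.STK Pool.KA Pool.KSAT Pool.K2S Pool.PB Pool.S6C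
open Pool.GEN Pool.CHT Pool.CHX Pool.ISO Pool.D2R
open Pool.FLF (Fam.sub)
open Pool.PB.Trl (rt rt_mem t_rt)
open Pool.LBT (ThrOf)

variable {m J : ℕ}

/-- The law of a record. -/
theorem law_push {Ω Ω' : Type} [Fintype Ω] [Fintype Ω'] (q : Ω → ℝ) (f : Ω → Ω')
    (B : Ω' → Prop) [DecidablePred B] :
    law q (fun x => B (f x)) True = ∑ y, if B y then law q f y else 0 := by
  classical
  unfold law
  have h1 : ∀ y, (if B y then ∑ x, (if f x = y then q x else 0) else 0) =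
      ∑ x, if f x = y then (if B (f x) then q x else 0) else 0 := by
    intro y
    by_cases hB : B y
    · rw [if_pos hB]
      refine Finset.sum_congr rfl fun x _ => ?_
      by_cases h2 : f x = y
      · rw [if_pos h2, if_pos h2, h2, if_pos hB]
      · rw [if_neg h2, if_neg h2]
    · rw [if_neg hB]
      symm
      refine Finset.sum_eq_zero fun x _ => ?_
      by_cases h2 : f x = y
      · rw [if_pos h2, h2, if_neg hB]
      · rw [if_neg h2]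
  rw [Finset.sum_congr rfl fun y _ => h1 y, Finset.sum_comm]
  refine Finset.sum_congr rfl fun x _ => ?_
  rw [Finset.sum_ite_eq Finset.univ (f x) (fun _ => if B (f x) then q x else 0)]
  simp

theorem RelE.mono {F : Fam m J} {c : ℕ → Fin m} {B B' : F.Ω → Prop} {w : ℕ} {dm dm' E E' : ℝ}
    {PA : ℕ → Polynomial ℝ} {om : F.Ω} (h : RelE F c B w dm E PA om) (hB : Sub B B')
    (hd : dm' ≤ dm) (hE : E' ≤ E) : RelE F c B' w dm' E' PA om := by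
  obtain ⟨nu, ε, h1, h2, h3, h4⟩ := h
  refine ⟨nu, ε, fun a => ⟨hB _ (h1 a).1, (h1 a).2⟩, hd.trans h2, h3, lt_of_le_of_lt ?_ h4⟩
  exact mul_le_mul_of_nonneg_left hE ((abs_nonneg _).trans (h3 0))

/-- **No relation**, in a class. -/
theorem nd_cls (m D₂ D n : ℕ) (hD : 1 ≤ D) (hn1 : 1 ≤ n) : ∃ C : ℝ, 1 ≤ C ∧ ∀ {S : PCl m}
    {P : List (Fin m) × Fin m → ℝ → ℝ → ℝ} {θ : ℝ} {c : ℕ → Fin m}
    {C₀ a' Eb ηm ζ : ℝ} {o η σ : ℕ → ℝ} {lv : ℕ → ℕ → ℝ} {r Dr N M k₀ nd : ℕ} {a w : ℚ}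
    {q₁ s₁ h h₂ e ι v₀ : ℝ},
    (∀ (τ : ℝ) (J : ℕ) (F : Fam m J) (A : F.Ω → Prop), S.St τ J F A → 0 < Pe F.p A) →
    ThrOf (chsys m θ) S P → TmH S → Set.InjOn c (Set.Iio (r + 1)) →
    2 ≤ r → k₀ ≤ N → nd ≤ N → o k₀ ≤ w → w ≤ o k₀ + ζ → 0 ≤ w → w ≤ a → a ≤ 1 → w < 1 →
    e < θ * w → 0 < h → 0 ≤ h₂ → 0 < ζ → C₀ * ηm ≤ ζ → 0 ≤ q₁ → bet P c 2 a w + h ≤ 1 →
    Eb + C * ζ + 2 * h₂ ≤ e →
    bet P c 2 a w + h + C * ζ + 2 * h₂ ≤ lv k₀ 2 + s₁ + (a - w) →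
    bet P c 2 a w + h + C * ζ + 2 * h₂ ≤ lv nd 2 - (o nd - w) + (a - w) →
    bet P c 2 a w + h + C * ζ + 2 * h₂ + q₁ ≤ lv k₀ 2 + 2 * (a - w) → q₁ + C * ζ ≤ a - w →
    (∀ l ≤ 2, Eb + lv k₀ l + 2 * (a - w) + C * ζ ≤ 1) →
    (∀ l ≤ 2, Eb + lv k₀ l + max s₁ 0 + 2 * q₁ + C * ζ ≤ 1) →
    (∀ j < 2, lv k₀ j ≤ lv k₀ 2 + ζ + h₂ ∨
      bet P c 2 a w + h ≤ lv k₀ 2 + (a - w) + ζ + h₂) →
    0 ≤ ι → ι < ζ → 0 ≤ v₀ → v₀ < 1 → v₀ ≤ o k₀ → 0 ≤ s₁ → s₁ + ι ≤ n * (o k₀ - v₀ - ζ) →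
    s₁ + 8 * ζ ≤ lv nd 2 - o nd - (lv k₀ 2 - o k₀) → ∀ c₁ Mq : ℝ, 0 < c₁ → 0 < Mq →
    ∃ e₀ : ℝ, 0 < e₀ ∧ Bas S (fun J F A => ∀ (z : ℕ → ℕ → ℕ) (κ : ℝ) (b : ℕ → ℕ → ℝ)
      (B : F.Ω → Prop) (g₀ : ℕ → ℕ → ℕ)
      (G : ℕ → PtT F → ℕ → MvPolynomial (Option (Fin m)) ℝ)
      (H : ℕ → LnT F → ℕ → MvPolynomial (Option (Fin m)) ℝ) (jq jT : ℕ),
      WinB F c r D Dr N M C₀ a' Eb ηm o η σ lv b κ z B g₀ G H →
      Sub B A → jq ≤ M → jT ≤ M → (z k₀ jq : ℝ) ≤ q₁ * J →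
      ⌊o k₀ * J⌋₊ + z k₀ jT ≤ ⌊(a : ℝ) * J⌋₊ →
      (a : ℝ) * J ≤ ⌊o k₀ * J⌋₊ + z k₀ jT + ζ * J + 2 →
      ∀ B₁ : F.Ω → Prop, Sub B₁ B →
      ROutB F c r ⌊o k₀ * J⌋₊ ⌊ζ * J⌋₊ (g₀ k₀) B₁ (G k₀) (H k₀) →
      ROutB F c r ⌊o nd * J⌋₊ ⌊ζ * J⌋₊ (g₀ nd) B₁ (G nd) (H nd) →
      (∀ ω, B₁ ω → ∀ j < 2, |gnh F c 2 (g₀ k₀) (G k₀) (G nd) ω j| ≤ 2 ^ (ι * J)) →
      (∀ ω ν, B₁ ω → B₁ ν → ptr F J ω = ptr F J ν → ∀ j < 2,
        |gnh F c 2 (g₀ k₀) (G k₀) (G nd) ω j - gnh F c 2 (g₀ k₀) (G k₀) (G nd) ν j| ≤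
          2 ^ (-(s₁ * J))) →
      ∀ (Ω₃ 𝒯 : Type) [Fintype Ω₃] (q : Ω₃ → ℝ) (om : Ω₃ → F.Ω) (tp : Ω₃ → 𝒯)
        (PA : 𝒯 → ℕ → Polynomial ℝ), IsLaw q → (∀ t l, (PA t l).natDegree ≤ D₂) →
      (∀ ω, law q om ω * Pe F.p A ≤ Mq * F.p ω) →
      CH q om (fun x => slam F ⌊v₀ * J⌋₊ (om x)) ≤
        CH q om (fun x => (tp x, slam F ⌊v₀ * J⌋₊ (om x))) + e₀ * J →
      law q (fun x => B₁ (om x) ∧ RelE F c B₁ ⌊v₀ * J⌋₊
        (2 ^ ((2 * o k₀ - lv k₀ 0 - lv k₀ 1 - ζ) * J))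
        (2 ^ ((lv k₀ 2 - o k₀ + s₁ + 6 * ζ) * J)) (PA (tp x)) (om x)) True < c₁) := by
  classical
  obtain ⟨C, hC, had⟩ := ad_noR m (D₂ + 2 * D) D D 2 n hD hn1
  refine ⟨C, hC, ?_⟩
  intro S P θ c C₀ a' Eb ηm ζ o η σ lv r Dr N M k₀ nd a w q₁ s₁ h h₂ e ι v₀ hpos hP hS hc hr hk₀
    hnd how1 how2 hw hwa ha hw1 he hh hh₂ hζ hCη hq₁ hbet hEe h1 h2 h3 h4 h5 h6 hnl hι0 hιζ hv0
    hv1 hvo hs₁ hns hdeep c₁ Mq hc₁ hMq
  obtain ⟨δ, hδ, had⟩ := had (S := S) (P := P) (θ := θ) (c := c) (C₀ := C₀) (a' := a') (Eb := Eb)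
    (ηm := ηm) (ζ := ζ) (o := o) (η := η) (σ := σ) (lv := lv) (r := r) (Dr := Dr) (N := N)
    (M := M) (k₀ := k₀) (nd := nd) (a := a) (w := w) (q₁ := q₁) (s₁ := s₁) (h := h) (h₂ := h₂)
    (e := e) (ι := ι) (v₀ := v₀) hP hS hc hr hk₀ hnd how1 how2 hw hwa ha hw1 he hh hh₂ hζ hCη hq₁
    hbet hEe h1 h2 h3 h4 h5 h6 hnl hι0 hιζ hv0 hv1 hvo hs₁ hns
  obtain ⟨J₁, hJ₁⟩ := exists_nat_ge (5 / (2 * ζ))
  obtain ⟨J₂, hJ₂⟩ := exists_nat_gt ((Real.log (2 * Mq / c₁) + 2 / c₁) / (δ / 2))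
  refine ⟨δ * c₁ / 4, by positivity, ?_⟩
  have hpos' : Bas S (fun _ F A => 0 < Pe F.p A) := ⟨1, one_pos, 0, fun J _ F A hA =>
    hpos _ J F A hA⟩
  refine Bas.mono (max (max J₁ J₂) 1) (had.and hpos') ?_
  rintro J hJ F A ⟨had, hA⟩ z κ b B g₀ G H jq jT hWB hBA hjq hjT hzq hzT1 hzT2 B₁ hB₁ hR₀ hRn
    hsz hvis Ω₃ 𝒯 _ q om tp PA hq hPA hlaw hCH
  have hJ0 : (0 : ℝ) ≤ J := Nat.cast_nonneg J
  have hJr : ∀ {K : ℕ}, K ≤ max (max J₁ J₂) 1 → (K : ℝ) ≤ J := fun h =>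
    by exact_mod_cast h.trans hJ
  have h2' : (0 : ℝ) < 2 := by norm_num
  have j1 : 5 ≤ 2 * ζ * J := by
    have e1 := hJ₁.trans (hJr ((le_max_left _ _).trans (le_max_left _ _)))
    rwa [div_le_iff₀ (by positivity), mul_comm] at e1
  have j2 : Real.log (2 * Mq / c₁) + 2 / c₁ < δ / 2 * J := by
    have e1 := hJ₂.trans_le (hJr ((le_max_right _ _).trans (le_max_left _ _)))
    rw [div_lt_iff₀ (by positivity)] at e1
    linarith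
  obtain ⟨v, hv⟩ : ∃ v : ℕ, v = ⌊v₀ * J⌋₊ := ⟨_, rfl⟩
  obtain ⟨W, hW⟩ : ∃ W : ℕ, W = ⌊o k₀ * J⌋₊ := ⟨_, rfl⟩
  obtain ⟨dm, hdm⟩ : ∃ dm : ℝ, dm = 2 ^ ((2 * o k₀ - lv k₀ 0 - lv k₀ 1 - ζ) * J) := ⟨_, rfl⟩
  obtain ⟨E, hE⟩ : ∃ E : ℝ, E = 2 ^ ((lv k₀ 2 - o k₀ + s₁ + 6 * ζ) * J) := ⟨_, rfl⟩
  rw [← hv] at hCH had
  rw [← hdm, ← hE, ← hv]
  by_contra hcon
  rw [not_lt] at hcon
  -- the windows
  have hvW : v ≤ W := by
    rw [hv, hW]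
    exact Nat.floor_le_floor (mul_le_mul_of_nonneg_right hvo hJ0)
  have hwR : (0 : ℝ) ≤ w := by exact_mod_cast hw
  have hw1R : (w : ℝ) < 1 := by exact_mod_cast hw1
  have hWw : W ≤ ⌊(w : ℝ) * J⌋₊ := by
    rw [hW]
    exact Nat.floor_le_floor (mul_le_mul_of_nonneg_right how1 hJ0)
  have hWJ : W ≤ J := by
    refine hWw.trans (Nat.floor_le_of_le ?_)
    have := mul_le_mul_of_nonneg_right hw1R.le hJ0
    linarith
  have ho0 : 0 ≤ o k₀ := hv0.trans hvo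
  have hWR : (W : ℝ) ≤ o k₀ * J := by rw [hW]; exact Nat.floor_le (mul_nonneg ho0 hJ0)
  have hWR2 : o k₀ * J - 1 ≤ W := by
    have := (Nat.lt_floor_add_one (o k₀ * (J : ℝ))).le
    rw [← hW] at this
    linarith
  obtain ⟨k, hk⟩ : ∃ k : ℕ, k = W - v := ⟨_, rfl⟩
  -- the choice of the tuple
  obtain ⟨t, ht⟩ := Pool.D2Con.prd_ev hq om tp (fun x => slam F v (om x))
    (fun e t _ => B₁ e ∧ RelE F c B₁ v dm E (PA t) e) hc₁
    (mul_nonneg (by positivity : (0 : ℝ) ≤ δ * c₁ / 4) hJ0) hCH hcon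
  obtain ⟨B', hB'⟩ : ∃ B' : F.Ω → Prop, B' = fun ω => B₁ ω ∧
      RelE F c B₁ v dm E (PA (tp (t (slam F v ω)))) ω := ⟨_, rfl⟩
  have hB'1 : Sub B' B₁ := fun ω hω => by
    rw [hB'] at hω
    exact hω.1
  have hB'B : Sub B' B := fun ω hω => hB₁ ω (hB'1 ω hω)
  -- the mass
  have hmass : c₁ / 2 * Real.exp (-(2 * (δ * c₁ / 4 * J + 1) / c₁)) * Pe F.p A ≤
      Mq * Pe F.p B' := by
    have e1 : law q (fun x => (0 < q (t (slam F v (om x))) ∧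
        slam F v (om (t (slam F v (om x)))) = slam F v (om x)) ∧
        (B₁ (om x) ∧ RelE F c B₁ v dm E (PA (tp (t (slam F v (om x))))) (om x))) True ≤
        law q (fun x => B' (om x)) True := by
      refine (Pool.JVE.pe_sum q _).trans_le (le_trans ?_ (Pool.JVE.pe_sum q _).ge)
      refine Finset.sum_le_sum fun x _ => ?_
      have h7 := hq.nonneg x
      by_cases h8 : B' (om x)
      · rw [if_pos h8]
        split_ifs <;> linarith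
      · rw [if_neg h8, if_neg]
        rintro ⟨-, h9⟩
        exact h8 (by rw [hB']; exact h9)
    have e2 := ht.trans e1
    rw [law_push] at e2
    have e3 : Pe F.p B' = ∑ ω, if B' ω then F.p ω else 0 := by
      show law F.p B' True = _
      unfold law
      refine Finset.sum_congr rfl fun ω _ => ?_
      simp
    have e4 : (∑ y, if B' y then law q om y else 0) * Pe F.p A ≤ Mq * Pe F.p B' := by
      rw [e3, Finset.sum_mul, Finset.mul_sum]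
      refine Finset.sum_le_sum fun ω _ => ?_
      by_cases h7 : B' ω
      · rw [if_pos h7, if_pos h7]
        exact hlaw ω
      · rw [if_neg h7, if_neg h7, zero_mul, mul_zero]
    exact (mul_le_mul_of_nonneg_right e2 hA.le).trans e4
  -- the polynomials
  obtain ⟨Ap, hAp⟩ : ∃ Ap : LnT F → ℕ → Polynomial ℝ, Ap = fun s l =>
      (PA (tp (t (co k s))) l).comp (afp k s) := ⟨_, rfl⟩
  have hApd : ∀ s l, (Ap s l).natDegree ≤ D₂ := fun s l => by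
    rw [hAp]
    refine Polynomial.natDegree_comp_le.trans ?_
    calc _ ≤ D₂ * 1 := Nat.mul_le_mul (hPA _ _) (afp_deg k s)
      _ = D₂ := mul_one _
  have hco : ∀ ω, co k (slam F W ω) = slam F v ω := fun ω => by
    rw [hk]
    exact co_slam F hvW hWJ ω
  have hApe : ∀ ω l, (Ap (slam F W ω) l).eval (rt F W ω) =
      (PA (tp (t (slam F v ω))) l).eval (rt F v ω) := fun ω l => by
    rw [hAp]
    beta_reduce
    rw [Polynomial.eval_comp, hco, hk, afp_eval F hvW hWJ]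
  -- the numbers
  have hηm0 : 0 ≤ ηm := (hWB.hη k₀ hk₀).1.trans (hWB.hη k₀ hk₀).2
  have hηζ : ηm ≤ ζ := (le_mul_of_one_le_left hηm0 hWB.C1).trans hCη
  have hpw : ∀ {x y : ℝ}, x ≤ y → (2 : ℝ) ^ x ≤ 2 ^ y := fun h =>
    Real.rpow_le_rpow_of_exponent_le (by norm_num) h
  have hmul : ∀ {x y : ℝ}, x ≤ y → x * (J : ℝ) ≤ y * J := fun h =>
    mul_le_mul_of_nonneg_right h hJ0
  obtain ⟨U, hU⟩ : ∃ U : ℝ, U = 2 ^ ⌊ζ * J⌋₊ := ⟨_, rfl⟩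
  have hU0 : 0 < U := by rw [hU]; positivity
  have hUle : U ≤ 2 ^ (ζ * J) := by
    rw [hU, ← Real.rpow_natCast]
    exact hpw (Nat.floor_le (by positivity))
  obtain ⟨er, her⟩ : ∃ er : ℝ, er = U * 2 ^ ⌊o nd * J⌋₊ / 2 ^ g₀ nd 2 := ⟨_, rfl⟩
  have her0 : 0 < er := by rw [her]; positivity
  obtain ⟨hon0, -⟩ := hWB.ho nd hnd
  have herle : er ≤ 2 ^ ((2 * ζ + o nd - lv nd 2) * J) := by
    have e1 := (hWB.sds nd hnd 2 hr).1
    have e2 := (hWB.hσ nd hnd).2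
    have e3 : (2 : ℝ) ^ ⌊o nd * J⌋₊ ≤ 2 ^ (o nd * J) := by
      rw [← Real.rpow_natCast]
      exact hpw (Nat.floor_le (mul_nonneg hon0 hJ0))
    have e4 : (2 : ℝ) ^ ((lv nd 2 - ζ) * J) ≤ 2 ^ g₀ nd 2 := by
      rw [← Real.rpow_natCast]
      refine hpw (le_trans ?_ e1)
      exact hmul (by linarith)
    rw [her, div_le_iff₀ (by positivity)]
    have e5 : (2 : ℝ) ^ ((2 * ζ + o nd - lv nd 2) * J) * 2 ^ ((lv nd 2 - ζ) * J) ≤
        2 ^ ((2 * ζ + o nd - lv nd 2) * J) * 2 ^ g₀ nd 2 :=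
      mul_le_mul_of_nonneg_left e4 (by positivity)
    refine le_trans ?_ e5
    rw [← Real.rpow_add h2']
    have e6 : U * 2 ^ ⌊o nd * J⌋₊ ≤ 2 ^ (ζ * J) * 2 ^ (o nd * J) :=
      mul_le_mul hUle e3 (by positivity) (by positivity)
    refine e6.trans (le_of_eq ?_)
    rw [← Real.rpow_add h2']
    congr 1
    ring
  have hE0 : 0 < E := by rw [hE]; positivity
  obtain ⟨η', hη'⟩ : ∃ η' : ℝ, η' = 2 ^ (-(3 * ζ * J)) := ⟨_, rfl⟩
  have hη'0 : 0 < η' := by rw [hη']; positivity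
  have hdmle : η' * (2 ^ W * 2 ^ W) ≤ 2 ^ g₀ k₀ 0 * 2 ^ g₀ k₀ 1 * dm := by
    have e0 := (hWB.sds k₀ hk₀ 0 (by omega)).1
    have e1 := (hWB.sds k₀ hk₀ 1 (by omega)).1
    have e2 := (hWB.hσ k₀ hk₀).2
    have e3 : (2 : ℝ) ^ W ≤ 2 ^ (o k₀ * J) := by
      rw [← Real.rpow_natCast]
      exact hpw hWR
    have e4 : ∀ l, (lv k₀ l - σ k₀) * J ≤ g₀ k₀ l → (2 : ℝ) ^ ((lv k₀ l - ζ) * J) ≤ 2 ^ g₀ k₀ l :=
      fun l hl => by
        rw [← Real.rpow_natCast]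
        exact hpw (le_trans (hmul (by linarith)) hl)
    have e5 : η' * (2 ^ W * 2 ^ W) ≤ η' * (2 ^ (o k₀ * J) * 2 ^ (o k₀ * J)) :=
      mul_le_mul_of_nonneg_left (mul_le_mul e3 e3 (by positivity) (by positivity)) hη'0.le
    have e6 : (2 : ℝ) ^ ((lv k₀ 0 - ζ) * J) * 2 ^ ((lv k₀ 1 - ζ) * J) * dm ≤
        2 ^ g₀ k₀ 0 * 2 ^ g₀ k₀ 1 * dm := by
      refine mul_le_mul_of_nonneg_right ?_ (by rw [hdm]; positivity)
      exact mul_le_mul (e4 0 e0) (e4 1 e1) (by positivity) (by positivity)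
    refine e5.trans (le_trans (le_of_eq ?_) e6)
    rw [hη', hdm, ← Real.rpow_add h2', ← Real.rpow_add h2', ← Real.rpow_add h2',
      ← Real.rpow_add h2']
    congr 1
    ring
  have hfin : (2 : ℝ) ^ g₀ k₀ 2 / 2 ^ W * (8 * U * (1 / E + er) / η') ≤ 2 ^ (-(s₁ * J)) := by
    have e1 : (2 : ℝ) ^ g₀ k₀ 2 ≤ 2 ^ (lv k₀ 2 * J) := by
      rw [← Real.rpow_natCast]
      exact hpw (hWB.sds k₀ hk₀ 2 hr).2
    have e2 : (2 : ℝ) ^ (o k₀ * J - 1) ≤ 2 ^ W := by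
      rw [← Real.rpow_natCast]
      exact hpw hWR2
    have e3 : (2 : ℝ) ^ g₀ k₀ 2 / 2 ^ W ≤ 2 ^ (lv k₀ 2 * J - (o k₀ * J - 1)) := by
      rw [Real.rpow_sub h2']
      exact div_le_div₀ (by positivity) e1 (by positivity) e2
    have e4 : (8 : ℝ) * U * (1 / E + er) / η' ≤ 2 ^ (3 + ζ * J + 3 * ζ * J) *
        (2 ^ (-((lv k₀ 2 - o k₀ + s₁ + 6 * ζ) * J)) + 2 ^ ((2 * ζ + o nd - lv nd 2) * J)) := by
      have e5 : 1 / E = 2 ^ (-((lv k₀ 2 - o k₀ + s₁ + 6 * ζ) * J)) := by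
        rw [hE, Real.rpow_neg h2'.le, one_div]
      have e6 : (8 : ℝ) * U / η' ≤ 2 ^ (3 + ζ * J + 3 * ζ * J) := by
        rw [hη', Real.rpow_neg h2'.le, div_inv_eq_mul, Real.rpow_add h2', Real.rpow_add h2']
        refine mul_le_mul_of_nonneg_right ?_ (by positivity)
        have e7 : (2 : ℝ) ^ (3 : ℝ) = 8 := by norm_num
        rw [e7]
        exact mul_le_mul_of_nonneg_left hUle (by norm_num)
      have e7 : (8 : ℝ) * U * (1 / E + er) / η' = 8 * U / η' * (1 / E + er) := by ring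
      rw [e7, e5]
      exact mul_le_mul e6 (by linarith) (by positivity) (by positivity)
    refine (mul_le_mul e3 e4 (by positivity) (by positivity)).trans ?_
    rw [mul_add, mul_add, ← Real.rpow_add h2', ← Real.rpow_add h2', ← Real.rpow_add h2',
      ← Real.rpow_add h2']
    have e8 : (2 : ℝ) ^ (lv k₀ 2 * J - (o k₀ * J - 1) + (3 + ζ * J + 3 * ζ * J +
        -((lv k₀ 2 - o k₀ + s₁ + 6 * ζ) * J))) ≤ 2 ^ (-(s₁ * J) - 1) := by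
      refine hpw ?_
      have e9 : lv k₀ 2 * J - (o k₀ * J - 1) + (3 + ζ * J + 3 * ζ * J +
        -((lv k₀ 2 - o k₀ + s₁ + 6 * ζ) * J)) = -(s₁ * J) + 4 - 2 * ζ * J := by ring
      rw [e9]
      linarith
    have e9 : (2 : ℝ) ^ (lv k₀ 2 * J - (o k₀ * J - 1) + (3 + ζ * J + 3 * ζ * J +
        (2 * ζ + o nd - lv nd 2) * J)) ≤ 2 ^ (-(s₁ * J) - 1) := by
      refine hpw ?_
      have e10 : lv k₀ 2 * J - (o k₀ * J - 1) + (3 + ζ * J + 3 * ζ * J +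
        (2 * ζ + o nd - lv nd 2) * J) = 4 + 6 * ζ * J -
        (lv nd 2 - o nd - (lv k₀ 2 - o k₀)) * J := by ring
      rw [e10]
      have e11 := hmul hdeep
      have e12 : (s₁ + 8 * ζ) * (J : ℝ) = s₁ * J + 6 * ζ * J + 2 * ζ * J := by ring
      rw [e12] at e11
      linarith
    refine (add_le_add e8 e9).trans (le_of_eq ?_)
    rw [Real.rpow_sub_one h2'.ne']
    ring
  -- the relation
  have hG := (hWB.ev k₀ hk₀).ball
  have hG' := (hWB.ev nd hnd).ball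
  have hcls := (hWB.ev k₀ hk₀).cls
  rw [← hW] at hcls
  have hc3 : Set.InjOn c (Set.Iio 3) := hc.mono fun y hy => by
    rw [Set.mem_Iio] at hy ⊢
    omega
  have hrat : ∀ ω, B' ω → (PA (tp (t (slam F v ω))) 2).eval (rt F v ω) ≠ 0 ∧ ∀ j < 2,
      |gnh F c 2 (g₀ k₀) (G k₀) (G nd) ω j * (PA (tp (t (slam F v ω))) 2).eval (rt F v ω) +
        (pa2 c (g₀ k₀) W (H k₀) (Ap (slam F W ω)) (slam F W ω) j).eval (rt F W ω)| ≤
        2 ^ (-(s₁ * J)) * |(PA (tp (t (slam F v ω))) 2).eval (rt F v ω)| := by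
    intro ω hω
    rw [hB'] at hω
    obtain ⟨hω1, hω2⟩ := hω
    obtain ⟨f1, f2⟩ := rel_grd (c := c) (w := v) (W := W) (γ := g₀ k₀) (G := G k₀) (G' := G nd)
      (H := H k₀) (B := B₁) (om := ω) (dm := dm) (E := E) (er := er) (U := U) (η := η')
      (PA := PA (tp (t (slam F v ω)))) (A := Ap (slam F W ω)) hc3 hWJ hG.depG hG'.depG
      (hApe ω) (fun l hl => hcls ω (hB₁ ω hω1) l (by omega))
      (fun nu hnu hpt l hl => by
        have h7 := hR₀.vel ω nu hω1 hnu hpt.symm l (by omega)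
        rw [hU, hW]
        exact h7)
      (fun nu hnu hpt => by
        have h7 := hRn.vel ω nu hω1 hnu hpt.symm 2 hr
        rw [her, hU]
        exact h7) hη'0 hdmle hE0 hU0.le her0.le hω2
    refine ⟨f1, fun j hj => (f2 j hj).trans ?_⟩
    exact mul_le_mul_of_nonneg_right hfin (abs_nonneg _)
  -- the contradiction
  have hfin2 := had z κ b B g₀ G H jq jT W hWB hBA hjq hjT hzq hzT1 hzT2 (by rw [hW]) hWw
    (by rw [hW]; omega) B' (G k₀) (H k₀) (fun _ _ => 0)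
    (fun s j => pa2 c (g₀ k₀) W (H k₀) (Ap s) s j) (fun s => PA (tp (t s)) 2) hB'B
    (hR₀.sub hB'1) (hRn.sub hB'1) hG.degG hG.depG hG.degH hG.depH
    (fun ω hω l hl => hcls ω (hB'B ω hω) l (by omega))
    (fun ω hω l hl b hb => by
      rw [add_zero, sub_self, abs_zero]
      positivity)
    (fun s j => pa2_deg c (g₀ k₀) W hG.degH (hApd s) s j)
    (fun s => (hPA _ _).trans (by omega)) hrat
    (fun ω hω j hj => hsz ω (hB'1 ω hω) j hj)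
    (fun ω ν hω hν hpt j hj => hvis ω ν (hB'1 ω hω) (hB'1 ν hν) hpt j hj)
  have h7 : c₁ / 2 * Real.exp (-(2 * (δ * c₁ / 4 * J + 1) / c₁)) * Pe F.p A ≤
      Mq * (Real.exp (-(δ * J)) * Pe F.p A) :=
    hmass.trans (mul_le_mul_of_nonneg_left hfin2 hMq.le)
  rw [← mul_assoc] at h7
  have h8 := le_of_mul_le_mul_right h7 hA
  have h9 : -(2 * (δ * c₁ / 4 * (J : ℝ) + 1) / c₁) = -(δ / 2 * J) - 2 / c₁ := by
    field_simp
    ring
  rw [h9] at h8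
  have h10 : Real.exp (-(δ * J)) = Real.exp (-(δ / 2 * J) - 2 / c₁) *
      Real.exp (2 / c₁ - δ / 2 * J) := by
    rw [← Real.exp_add]
    congr 1
    ring
  rw [h10] at h8
  have h11 : c₁ / 2 ≤ Mq * Real.exp (2 / c₁ - δ / 2 * J) := by
    have h12 := Real.exp_pos (-(δ / 2 * (J : ℝ)) - 2 / c₁)
    refine le_of_mul_le_mul_right ?_ h12
    linarith
  have h12 : Real.exp (2 / c₁ - δ / 2 * J) < c₁ / (2 * Mq) := by
    rw [← Real.lt_log_iff_exp_lt (by positivity)]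
    have h13 : Real.log (c₁ / (2 * Mq)) = -Real.log (2 * Mq / c₁) := by
      rw [← Real.log_inv, inv_div]
    rw [h13]
    linarith
  have h13 : Mq * Real.exp (2 / c₁ - δ / 2 * J) < Mq * (c₁ / (2 * Mq)) :=
    mul_lt_mul_of_pos_left h12 hMq
  have h14 : Mq * (c₁ / (2 * Mq)) = c₁ / 2 := by
    field_simp
  linarith

end Pool.ND6
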